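import Mathlib

/-! # MP_332e42_an: the T-strong open set condition for simple digit sets.

Abstract part: a commutative group `L` with an injective endomorphism `R` and finite sets of digits.
`Mv R E n x y` means `x = e_0 + R e_1 + ... + R^(n-1) e_(n-1) + R^n y` with digits `e_i ∈ E`.
Geometric part: `Sys d`, an expanding integer endomorphism together with its real version. -/

set_option autoImplicit false

namespace Pool.Agent.helper23.TS

open Pointwise

section Abstract

variable {L : Type*} [AddCommGroup L]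

/-- `Mv R E n x y`: there are digits `e_0, …, e_(n-1) ∈ E` with
`x = e_0 + R e_1 + ⋯ + R^(n-1) e_(n-1) + R^n y`. -/
inductive Mv (R : L →+ L) (E : Set L) : ℕ → L → L → Prop
  | zero (x : L) : Mv R E 0 x x
  | succ {n : ℕ} {x y z e : L} : e ∈ E → x = e + R y → Mv R E n y z → Mv R E (n + 1) x z

/-- every finite digit set has a finite attractor for the moves `x = e + R y ↦ y`. -/
def HasAttr (R : L →+ L) : Prop :=
  ∀ E : Set L, E.Finite → ∃ K : Set L, K.Finite ∧ (∀ x ∈ K, ∀ n y, Mv R E n x y → y ∈ K) ∧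
    ∀ x, ∃ n₀, ∀ n, n₀ ≤ n → ∀ y, Mv R E n x y → y ∈ K

/-- `E` meets every class modulo `R L`. -/
def Full (R : L →+ L) (E : Set L) : Prop := ∀ x, ∃ e ∈ E, ∃ y, x = e + R y

/-- no two distinct elements of `B` are congruent modulo `R L`. -/
def Simple (R : L →+ L) (B : Set L) : Prop := ∀ b ∈ B, ∀ b' ∈ B, ∀ y, b = b' + R y → b = b'

/-- `x` is congruent modulo `R L` to an element of `B`. -/
def InCls (R : L →+ L) (B : Set L) (x : L) : Prop := ∃ b ∈ B, ∃ y, x = b + R y

end Abstract

section Geometric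

/-- the real vector of an integer vector -/
def toR {d : ℕ} (b : Fin d → ℤ) : Fin d → ℝ := fun i => (b i : ℝ)

/-- an expanding endomorphism of `ℤ^d` with its real version `A` (so that `∑ ‖A^(-n)‖ < ∞`). -/
structure Sys (d : ℕ) where
  R : (Fin d → ℤ) →+ (Fin d → ℤ)
  A : (Fin d → ℝ) ≃L[ℝ] (Fin d → ℝ)
  compat : ∀ x, A (toR x) = toR (R x)
  summ : Summable fun n : ℕ => ‖((A.symm : (Fin d → ℝ) →L[ℝ] (Fin d → ℝ)) ^ n)‖

/-- `T` is the attractor of the maps `x ↦ A⁻¹ (x + b)`, `b ∈ B`. -/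
def IsAttr {d : ℕ} (S : Sys d) (B : Set (Fin d → ℤ)) (T : Set (Fin d → ℝ)) : Prop :=
  T.Nonempty ∧ IsCompact T ∧ T = ⋃ b ∈ B, (fun x => S.A.symm (x + toR b)) '' T

end Geometric

end Pool.Agent.helper23.TS
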