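import Mathlib
import Pool.Agent.helper23.TS.Defs

/-! # Merging theorem (module MRG of MP_332e42_an) -/

set_option autoImplicit false

namespace Pool.Agent.helper23.TS

open Pointwise

variable {L : Type*} [AddCommGroup L] {R : L →+ L} {E : Set L}

/-! ### basics on moves -/

theorem Mv.one {x y e : L} (he : e ∈ E) (h : x = e + R y) : Mv R E 1 x y :=
  Mv.succ he h (Mv.zero y)

theorem Mv.trans {m n : ℕ} {x y z : L} (h : Mv R E m x y) (h' : Mv R E n y z) :
    Mv R E (m + n) x z := by
  induction h with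
  | zero x => rwa [zero_add]
  | succ he hx _ ih =>
    rw [Nat.add_right_comm]
    exact Mv.succ he hx (ih h')

theorem Mv.mono {E' : Set L} (hE : E ⊆ E') {n : ℕ} {x y : L} (h : Mv R E n x y) :
    Mv R E' n x y := by
  induction h with
  | zero x => exact Mv.zero x
  | succ he hx _ ih => exact Mv.succ (hE he) hx ih

theorem Mv.eq_of_zero {x y : L} (h : Mv R E 0 x y) : x = y := by
  cases h
  rfl

theorem Mv.exists_of_succ {n : ℕ} {x z : L} (h : Mv R E (n + 1) x z) :
    ∃ e ∈ E, ∃ y, x = e + R y ∧ Mv R E n y z := by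
  cases h with
  | succ he hx h => exact ⟨_, he, _, hx, h⟩

/-- translation of a move -/
theorem Mv.translate {n : ℕ} {x y : L} (h : Mv R E n x y) (g : L) :
    Mv R E n (x + R^[n] g) (y + g) := by
  induction h with
  | zero x => exact Mv.zero _
  | @succ n x y z e he hx _ ih =>
    refine Mv.succ he ?_ ih
    rw [Function.iterate_succ_apply', map_add, hx, add_assoc]

/-- difference of two moves of the same length -/
theorem Mv.diff {n : ℕ} {x y x' y' : L} (h : Mv R E n x y) (h' : Mv R E n x' y') :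
    Mv R (E - E) n (x - x') (y - y') := by
  induction h generalizing x' with
  | zero x =>
    cases h'
    exact Mv.zero _
  | @succ n x y z e he hx _ ih =>
    obtain ⟨e', he', w, hw, h''⟩ := h'.exists_of_succ
    refine Mv.succ (Set.sub_mem_sub he he') ?_ (ih h'')
    rw [hx, hw, map_sub]
    abel

/-- a difference move comes from two moves -/
theorem Mv.split {n : ℕ} {t s : L} (h : Mv R (E - E) n t s) (y : L) :
    ∃ x x', x - x' = t ∧ Mv R E n x y ∧ Mv R E n x' (y - s) := by
  induction h with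
  | zero x => exact ⟨y, y - x, by abel, Mv.zero _, Mv.zero _⟩
  | @succ n t u s a ha ht _ ih =>
    obtain ⟨x, x', hx, h1, h2⟩ := ih
    obtain ⟨e, he, e', he', rfl⟩ := Set.mem_sub.1 ha
    refine ⟨e + R x, e' + R x', ?_, Mv.succ he rfl h1, Mv.succ he' rfl h2⟩
    rw [ht, ← hx, map_sub]
    abel

theorem Full.exists_mv (hF : Full R E) (n : ℕ) (x : L) : ∃ y, Mv R E n x y := by
  induction n generalizing x with
  | zero => exact ⟨x, Mv.zero x⟩
  | succ n ih =>
    obtain ⟨e, he, y, hy⟩ := hF x
    obtain ⟨z, hz⟩ := ih y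
    exact ⟨z, Mv.succ he hy hz⟩

theorem Mv.zero_zero (h0 : (0 : L) ∈ E) (n : ℕ) : Mv R E n 0 0 := by
  induction n with
  | zero => exact Mv.zero 0
  | succ n ih => exact Mv.succ h0 (by simp) ih

theorem Mv.pad (h0 : (0 : L) ∈ E) {n m : ℕ} (hnm : n ≤ m) {x : L} (h : Mv R E n x 0) :
    Mv R E m x 0 := by
  obtain ⟨k, rfl⟩ := Nat.exists_eq_add_of_le hnm
  exact h.trans (Mv.zero_zero h0 k)

theorem Mv.neg {n : ℕ} {t s : L} (h : Mv R (E - E) n t s) : Mv R (E - E) n (-t) (-s) := by
  obtain ⟨x, x', hx, h1, h2⟩ := h.split 0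
  have h3 := h2.diff h1
  have e1 : x' - x = -t := by rw [← hx]; abel
  have e2 : (0 - s) - 0 = -s := by abel
  rwa [e1, e2] at h3

/-- the group `Γ` of the merging theorem -/
def Gam (R : L →+ L) (E : Set L) : AddSubgroup L :=
  AddSubgroup.closure {z | ∃ n, Mv R (E - E) n 0 z}

/-- `t` can be brought to `0` by differences of digits -/
def Merg (R : L →+ L) (E : Set L) (t : L) : Prop := ∃ n, Mv R (E - E) n t 0

theorem Merg.of_mv {n : ℕ} {t s : L} (h : Mv R (E - E) n t s) (hs : Merg R E s) :
    Merg R E t := by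
  obtain ⟨m, hm⟩ := hs
  exact ⟨n + m, h.trans hm⟩

theorem Merg.neg {t : L} (h : Merg R E t) : Merg R E (-t) := by
  obtain ⟨n, hn⟩ := h
  refine ⟨n, ?_⟩
  have := hn.neg
  rwa [neg_zero] at this

theorem Merg.zero : Merg R E (0 : L) := ⟨0, Mv.zero 0⟩

/-- pairwise non-mergeable sets of arbitrary size, if some descendant of `0` is not mergeable -/
theorem exists_nonmerg (hF : Full R E) {n : ℕ} {z : L} (hz : Mv R (E - E) n 0 z)
    (hzm : ¬ Merg R E z) (k : ℕ) :
    ∃ X : Finset L, X.card = k + 1 ∧ ∀ x ∈ X, ∀ y ∈ X, x ≠ y → ¬ Merg R E (x - y) := by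
  classical
  induction k with
  | zero => exact ⟨{0}, by simp, by simp⟩
  | succ k ih =>
    obtain ⟨X, hcard, hX⟩ := ih
    obtain ⟨x₁, hx₁⟩ : X.Nonempty := by
      rw [← Finset.card_pos]
      omega
    obtain ⟨x, x', hxx, h1, h2⟩ := hz.split z
    have hxx' : x = x' := by rwa [sub_eq_zero] at hxx
    subst hxx'
    rw [sub_self] at h2
    -- the moves of the translated set
    have hch : ∀ a : L, ∃ b, Mv R E n (a - (x₁ - x)) b ∧ (a = x₁ → b = 0) := by
      intro a
      by_cases ha : a = x₁
      · refine ⟨0, ?_, fun _ => rfl⟩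
        rw [ha, sub_sub_cancel]
        exact h2
      · obtain ⟨b, hb⟩ := hF.exists_mv n (a - (x₁ - x))
        exact ⟨b, hb, fun h => absurd h ha⟩
    choose f hf hf0 using hch
    have hdiff : ∀ a ∈ X, ∀ b ∈ X, a ≠ b → ¬ Merg R E (f a - f b) := by
      intro a ha b hb hab hm
      apply hX a ha b hb hab
      have h3 := (hf a).diff (hf b)
      rw [sub_sub_sub_cancel_right] at h3
      exact Merg.of_mv h3 hm
    have hinj : Set.InjOn f X := by
      intro a ha b hb hab
      by_contra hne
      apply hdiff a ha b hb hne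
      rw [hab, sub_self]
      exact Merg.zero
    have hzdiff : ∀ a ∈ X, ¬ Merg R E (z - f a) := by
      intro a ha hm
      by_cases h : a = x₁
      · rw [hf0 a h, sub_zero] at hm
        exact hzm hm
      · apply hX x₁ hx₁ a ha (Ne.symm h)
        have h1' : Mv R E n (x₁ - (x₁ - x)) z := by
          rw [sub_sub_cancel]
          exact h1
        have h3 := h1'.diff (hf a)
        rw [sub_sub_sub_cancel_right] at h3
        exact Merg.of_mv h3 hm
    have hznot : z ∉ X.image f := by
      intro h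
      obtain ⟨a, ha, hfa⟩ := Finset.mem_image.1 h
      apply hzdiff a ha
      rw [hfa, sub_self]
      exact Merg.zero
    refine ⟨insert z (X.image f), ?_, ?_⟩
    · rw [Finset.card_insert_of_notMem hznot, Finset.card_image_of_injOn hinj, hcard]
    · intro a ha b hb hab
      rw [Finset.mem_insert] at ha hb
      rcases ha with rfl | ha
      · rcases hb with rfl | hb
        · exact absurd rfl hab
        · obtain ⟨c, hc, rfl⟩ := Finset.mem_image.1 hb
          exact hzdiff c hc
      · obtain ⟨c, hc, rfl⟩ := Finset.mem_image.1 ha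
        rcases hb with rfl | hb
        · intro hm
          apply hzdiff c hc
          have := hm.neg
          rwa [neg_sub] at this
        · obtain ⟨c', hc', rfl⟩ := Finset.mem_image.1 hb
          apply hdiff c hc c' hc'
          rintro rfl
          exact hab rfl

/-- recurrence: descendants of `0` are mergeable -/
theorem merg_of_zero (hA : HasAttr R) (hE : E.Finite) (hF : Full R E) {n : ℕ} {z : L}
    (hz : Mv R (E - E) n 0 z) : Merg R E z := by
  classical
  by_contra hzm
  obtain ⟨K, hKf, -, hKe⟩ := hA E hE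
  obtain ⟨X, hcard, hX⟩ := exists_nonmerg hF hz hzm hKf.toFinset.card
  choose n₀ hn₀ using hKe
  set N := X.sup n₀ with hN
  choose f hf using fun a : L => hF.exists_mv N a
  have hmem : ∀ a ∈ X, f a ∈ hKf.toFinset := by
    intro a ha
    rw [Set.Finite.mem_toFinset]
    exact hn₀ a N (Finset.le_sup ha) _ (hf a)
  have hinj : Set.InjOn f X := by
    intro a ha b hb hab
    by_contra hne
    apply hX a ha b hb hne
    have h3 := (hf a).diff (hf b)
    rw [hab, sub_self] at h3
    exact ⟨N, h3⟩
  have := Finset.card_le_card_of_injOn f hmem hinj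
  omega

/-- descendants of descendants of `0` -/
theorem zset_closed {n : ℕ} {z z' : L} (hz : ∃ m, Mv R (E - E) m 0 z)
    (h : Mv R (E - E) n z z') : ∃ m, Mv R (E - E) m 0 z' := by
  obtain ⟨m, hm⟩ := hz
  exact ⟨m + n, hm.trans h⟩

theorem zset_neg {z : L} (hz : ∃ m, Mv R (E - E) m 0 z) : ∃ m, Mv R (E - E) m 0 (-z) := by
  obtain ⟨m, hm⟩ := hz
  refine ⟨m, ?_⟩
  have := hm.neg
  rwa [neg_zero] at this

theorem exists_list_of_mem_gam {γ : L} (h : γ ∈ Gam R E) :
    ∃ l : List L, (∀ z ∈ l, ∃ m, Mv R (E - E) m 0 z) ∧ l.sum = γ := by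
  unfold Gam at h
  induction h using AddSubgroup.closure_induction with
  | mem x hx => exact ⟨[x], by simpa using hx, by simp⟩
  | zero => exact ⟨[], by simp, by simp⟩
  | add x y _ _ hx hy =>
    obtain ⟨l, hl, rfl⟩ := hx
    obtain ⟨l', hl', rfl⟩ := hy
    refine ⟨l ++ l', fun z hz => ?_, by simp⟩
    rcases List.mem_append.1 hz with h | h
    · exact hl z h
    · exact hl' z h
  | neg x _ hx =>
    obtain ⟨l, hl, rfl⟩ := hx
    refine ⟨l.map (fun z => -z), fun z hz => ?_, ?_⟩
    · obtain ⟨w, hw, rfl⟩ := List.mem_map.1 hz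
      exact zset_neg (hl w hw)
    · rw [← List.sum_neg]

theorem mem_gam_of_zset {z : L} (hz : ∃ m, Mv R (E - E) m 0 z) : z ∈ Gam R E :=
  AddSubgroup.subset_closure hz

theorem list_sum_mem_gam {l : List L} (hl : ∀ z ∈ l, ∃ m, Mv R (E - E) m 0 z) :
    l.sum ∈ Gam R E :=
  AddSubgroup.list_sum_mem _ (fun z hz => mem_gam_of_zset (hl z hz))

/-- transport of a chain, free end point -/
theorem chain_free (hF : Full R E) (n : ℕ) (l : List L) (hl : ∀ z ∈ l, ∃ m, Mv R (E - E) m 0 z) :
    ∀ x y, Mv R E n x y → ∃ (y' : L) (l' : List L), l'.length = l.length ∧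
      (∀ z ∈ l', ∃ m, Mv R (E - E) m 0 z) ∧ Mv R E n (x - l.sum) y' ∧ y - y' = l'.sum := by
  induction l with
  | nil =>
    intro x y h
    exact ⟨y, [], rfl, by simp, by simpa using h, by simp⟩
  | cons z l ih =>
    intro x y h
    obtain ⟨y₁, hy₁⟩ := hF.exists_mv n (x - z)
    obtain ⟨y', l', hlen, hl', hmv, hsum⟩ := ih (fun w hw => hl w (List.mem_cons_of_mem _ hw))
      (x - z) y₁ hy₁
    have h3 := h.diff hy₁
    rw [sub_sub_cancel] at h3
    refine ⟨y', (y - y₁) :: l', by simp [hlen], ?_, ?_, ?_⟩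
    · intro w hw
      rcases List.mem_cons.1 hw with rfl | hw
      · exact zset_closed (hl z List.mem_cons_self) h3
      · exact hl' w hw
    · rw [List.sum_cons, ← sub_sub]
      exact hmv
    · rw [List.sum_cons, ← hsum]
      abel

/-- every sum of descendants of `0` is mergeable -/
theorem merg_list (hA : HasAttr R) (hE : E.Finite) (hF : Full R E) (k : ℕ) :
    ∀ l : List L, l.length = k → (∀ z ∈ l, ∃ m, Mv R (E - E) m 0 z) → Merg R E l.sum := by
  induction k with
  | zero =>
    intro l hl _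
    rw [List.length_eq_zero_iff] at hl
    subst hl
    exact Merg.zero
  | succ k ih =>
    intro l hlen hl
    match l, hlen, hl with
    | z :: l, hlen, hl =>
      obtain ⟨m, hm⟩ := hl z List.mem_cons_self
      obtain ⟨n, hn⟩ := merg_of_zero hA hE hF hm
      obtain ⟨x, x', hx, h1, h2⟩ := hn.split 0
      rw [sub_zero] at h2
      obtain ⟨y', l', hlen', hl', hmv, hsum⟩ := chain_free hF n l
        (fun w hw => hl w (List.mem_cons_of_mem _ hw)) x' 0 h2
      have h3 := h1.diff hmv
      have e1 : x - (x' - l.sum) = (z :: l).sum := by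
        rw [List.sum_cons, ← hx]
        abel
      rw [e1, hsum] at h3
      refine Merg.of_mv h3 (ih l' ?_ hl')
      rw [hlen']
      simpa using hlen

theorem merg_of_mem_gam (hA : HasAttr R) (hE : E.Finite) (hF : Full R E) {γ : L}
    (h : γ ∈ Gam R E) : Merg R E γ := by
  obtain ⟨l, hl, rfl⟩ := exists_list_of_mem_gam h
  exact merg_list hA hE hF l.length l rfl hl

/-- transport of a chain with both end points given -/
theorem chain_fixed (hF : Full R E) (n : ℕ) (l : List L)
    (hl : ∀ z ∈ l, ∃ m, Mv R (E - E) m 0 z) :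
    ∀ x y x' y', Mv R E n x y → Mv R E n x' y' → x - x' = l.sum → y - y' ∈ Gam R E := by
  induction l with
  | nil =>
    intro x y x' y' h h' hs
    have h3 := h.diff h'
    rw [hs, List.sum_nil] at h3
    exact mem_gam_of_zset ⟨n, h3⟩
  | cons z l ih =>
    intro x y x' y' h h' hs
    obtain ⟨y₁, hy₁⟩ := hF.exists_mv n (x - z)
    have h3 := h.diff hy₁
    rw [sub_sub_cancel] at h3
    have h4 := ih (fun w hw => hl w (List.mem_cons_of_mem _ hw)) (x - z) y₁ x' y' hy₁ h' (by
      rw [sub_right_comm, hs, List.sum_cons]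
      abel)
    have h5 := mem_gam_of_zset (zset_closed (hl z List.mem_cons_self) h3)
    have := (Gam R E).add_mem h5 h4
    rwa [sub_add_sub_cancel] at this

/-- `Γ` is closed under moves -/
theorem gam_closed (hF : Full R E) {n : ℕ} {γ γ' : L} (h : γ ∈ Gam R E)
    (hm : Mv R (E - E) n γ γ') : γ' ∈ Gam R E := by
  obtain ⟨l, hl, hs⟩ := exists_list_of_mem_gam h
  obtain ⟨x, x', hx, h1, h2⟩ := hm.split 0
  have h3 := chain_fixed hF n l hl x 0 x' (0 - γ') h1 h2 (by rw [hx, hs])
  simpa using h3

/-- the merging theorem for finite sets -/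
theorem merge_finset (hA : HasAttr R) (hE : E.Finite) (hF : Full R E) (k : ℕ) :
    ∀ X : Finset L, X.card ≤ k → (∀ x ∈ X, ∀ y ∈ X, x - y ∈ Gam R E) →
      ∃ w, (∀ x ∈ X, ∃ m, Mv R E m (x - w) 0) := by
  classical
  induction k with
  | zero =>
    intro X hX _
    refine ⟨0, fun x hx => ?_⟩
    have : X = ∅ := by
      rw [← Finset.card_eq_zero]
      omega
    rw [this] at hx
    simp at hx
  | succ k ih =>
    intro X hcard hX
    by_cases h : ∃ s₁ ∈ X, ∃ s₂ ∈ X, s₁ ≠ s₂
    · obtain ⟨s₁, hs₁, s₂, hs₂, hne⟩ := h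
      obtain ⟨n, hn⟩ := merg_of_mem_gam hA hE hF (hX s₁ hs₁ s₂ hs₂)
      obtain ⟨x, x', hxx, h1, h2⟩ := hn.split 0
      rw [sub_zero] at h2
      set w₀ := s₁ - x with hw₀
      have hw₀' : s₂ - w₀ = x' := by
        rw [hw₀]
        have : x' = x - (s₁ - s₂) := by rw [← hxx]; abel
        rw [this]
        abel
      have hch : ∀ a : L, ∃ b, Mv R E n (a - w₀) b ∧ (a = s₁ ∨ a = s₂ → b = 0) := by
        intro a
        by_cases ha : a = s₁ ∨ a = s₂
        · refine ⟨0, ?_, fun _ => rfl⟩
          rcases ha with rfl | rfl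
          · rw [hw₀, sub_sub_cancel]
            exact h1
          · rw [hw₀']
            exact h2
        · obtain ⟨b, hb⟩ := hF.exists_mv n (a - w₀)
          exact ⟨b, hb, fun h => absurd h ha⟩
      choose f hf hf0 using hch
      have hcard' : (X.image f).card ≤ k := by
        have hlt : (X.image f).card < X.card := by
          refine lt_of_le_of_ne Finset.card_image_le (fun heq => ?_)
          have hinj := Finset.card_image_iff.1 heq
          apply hne
          apply hinj hs₁ hs₂
          rw [hf0 s₁ (Or.inl rfl), hf0 s₂ (Or.inr rfl)]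
        omega
      obtain ⟨w₁, hw₁⟩ := ih (X.image f) hcard' (by
        intro a ha b hb
        obtain ⟨a', ha', rfl⟩ := Finset.mem_image.1 ha
        obtain ⟨b', hb', rfl⟩ := Finset.mem_image.1 hb
        have h3 := (hf a').diff (hf b')
        rw [sub_sub_sub_cancel_right] at h3
        exact gam_closed hF (hX a' ha' b' hb') h3)
      refine ⟨w₀ + R^[n] w₁, fun s hs => ?_⟩
      obtain ⟨m, hm⟩ := hw₁ (f s) (Finset.mem_image_of_mem f hs)
      refine ⟨n + m, ?_⟩
      have h3 := (hf s).translate (-w₁)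
      rw [← sub_eq_add_neg] at h3
      have e1 : s - w₀ + R^[n] (-w₁) = s - (w₀ + R^[n] w₁) := by
        rw [iterate_map_neg]
        abel
      rw [e1] at h3
      exact h3.trans hm
    · push Not at h
      by_cases hne : X.Nonempty
      · obtain ⟨s, hs⟩ := hne
        refine ⟨s, fun x hx => ⟨0, ?_⟩⟩
        rw [h x hx s hs, sub_self]
        exact Mv.zero 0
      · rw [Finset.not_nonempty_iff_eq_empty] at hne
        subst hne
        exact ⟨0, by simp⟩

end Pool.Agent.helper23.TS
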