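import Mathlib
import Pool.Agent.helper23.TS.MRG
import Pool.Agent.helper17.TS.ALG

/-! # Full rank of the merging group (module FRK of MP_332e42_an) -/

set_option autoImplicit false

namespace Pool.Agent.helper23.TS

open Pointwise

variable {L : Type*} [AddCommGroup L] {R : L →+ L} {E : Set L}

theorem Mv.sub_mem {H : AddSubgroup L} (hH : ∀ x ∈ H, R x ∈ H) (hE : E ⊆ H) {n : ℕ} {x y : L}
    (h : Mv R E n x y) : x - R^[n] y ∈ H := by
  induction h with
  | zero x => simp
  | @succ n x y z e he hx _ ih =>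
    have e1 : x - R^[n + 1] z = e + R (y - R^[n] z) := by
      rw [Function.iterate_succ_apply', map_sub, hx]
      abel
    rw [e1]
    exact H.add_mem (hE he) (hH _ ih)

theorem iterate_mem {H : AddSubgroup L} (hH : ∀ x ∈ H, R x ∈ H) (n : ℕ) {x : L} (h : x ∈ H) :
    R^[n] x ∈ H := by
  induction n with
  | zero => exact h
  | succ n ih =>
    rw [Function.iterate_succ_apply']
    exact hH _ ih

theorem mem_of_iterate_mem {H : AddSubgroup L} (hH : ∀ x, R x ∈ H → x ∈ H) (n : ℕ) {x : L}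
    (h : R^[n] x ∈ H) : x ∈ H := by
  induction n with
  | zero => exact h
  | succ n ih =>
    rw [Function.iterate_succ_apply'] at h
    exact ih (hH _ h)

/-- pigeonhole: a finite set containing all multiples modulo a saturated subgroup -/
theorem mem_of_multiples {H : AddSubgroup L} (hsat : ∀ (m : ℕ) (x : L), 0 < m → m • x ∈ H → x ∈ H)
    {K : Set L} (hK : K.Finite) {x : L} (h : ∀ j : ℕ, ∃ k ∈ K, j • x - k ∈ H) : x ∈ H := by
  choose f hfK hf using h
  obtain ⟨i, j, hij, hfij⟩ : ∃ i j : ℕ, i < j ∧ f i = f j := by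
    by_contra hcon
    push Not at hcon
    have hinj : Function.Injective f := by
      intro i j hij
      by_contra hne
      rcases lt_or_gt_of_ne hne with h | h
      · exact hcon i j h hij
      · exact hcon j i h hij.symm
    exact Set.infinite_range_of_injective hinj (hK.subset (by
      rintro _ ⟨i, rfl⟩
      exact hfK i))
  apply hsat (j - i) x (by omega)
  have h1 := H.sub_mem (hf j) (hf i)
  rw [hfij, sub_sub_sub_cancel_right] at h1
  rw [sub_nsmul x hij.le, ← sub_eq_add_neg]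
  exact h1

/-- the saturation of a subgroup -/
def satGroup (Γ : AddSubgroup L) : AddSubgroup L where
  carrier := {x | ∃ m : ℕ, 0 < m ∧ m • x ∈ Γ}
  zero_mem' := ⟨1, one_pos, by simp⟩
  add_mem' := by
    rintro x y ⟨m, hm, hx⟩ ⟨n, hn, hy⟩
    refine ⟨m * n, Nat.mul_pos hm hn, ?_⟩
    rw [smul_add]
    apply Γ.add_mem
    · rw [mul_comm, mul_smul]
      exact Γ.nsmul_mem hx n
    · rw [mul_smul]
      exact Γ.nsmul_mem hy m
  neg_mem' := by
    rintro x ⟨m, hm, hx⟩
    refine ⟨m, hm, ?_⟩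
    rw [smul_neg]
    exact Γ.neg_mem hx

theorem mem_satGroup {Γ : AddSubgroup L} {x : L} :
    x ∈ satGroup Γ ↔ ∃ m : ℕ, 0 < m ∧ m • x ∈ Γ := Iff.rfl

theorem satGroup_sat (Γ : AddSubgroup L) (m : ℕ) (x : L) (hm : 0 < m)
    (h : m • x ∈ satGroup Γ) : x ∈ satGroup Γ := by
  obtain ⟨n, hn, h⟩ := h
  exact ⟨n * m, Nat.mul_pos hn hm, by rwa [mul_smul]⟩

theorem le_satGroup (Γ : AddSubgroup L) : Γ ≤ satGroup Γ := fun x hx =>
  ⟨1, one_pos, by simpa using hx⟩

variable [Module.Free ℤ L] [Module.Finite ℤ L]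

theorem frk_top (hR : Function.Injective R) (hA : HasAttr R) (hE : E.Finite) (h0 : (0 : L) ∈ E)
    (hF : Full R E) :
    (∀ x, R x ∈ Gam R (E - E) → x ∈ Gam R (E - E)) ∧
      ∀ x, ∃ m : ℕ, 0 < m ∧ m • x ∈ Gam R (E - E) := by
  have hEA : E ⊆ E - E := fun e he => by simpa using Set.sub_mem_sub he h0
  have hAf : (E - E).Finite := hE.sub hE
  have hFA : Full R (E - E) := by
    intro x
    obtain ⟨e, he, y, hy⟩ := hF x
    exact ⟨e, hEA he, y, hy⟩
  have h0A : (0 : L) ∈ E - E := hEA h0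
  have h0AA : (0 : L) ∈ (E - E) - (E - E) := by simpa using Set.sub_mem_sub h0A h0A
  set Γ := Gam R (E - E) with hΓdef
  have hΓ : ∀ x, R x ∈ Γ → x ∈ Γ := by
    intro x hx
    exact gam_closed hFA hx (Mv.one h0AA (by simp))
  refine ⟨hΓ, ?_⟩
  set H := satGroup Γ with hH
  have hRH : ∀ x ∈ H, R x ∈ H := fun x hx => sat_R R hR Γ hΓ x hx
  have hHR : ∀ x, R x ∈ H → x ∈ H := by
    rintro x ⟨m, hm, hx⟩
    rw [← map_nsmul] at hx
    exact ⟨m, hm, hΓ _ hx⟩
  -- `E` is closed under subtraction modulo `H`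
  have hsub : ∀ e ∈ E, ∀ e' ∈ E, ∃ e'' ∈ E, e - e' - e'' ∈ H := by
    intro e he e' he'
    obtain ⟨e'', he'', z, hz⟩ := hF (e - e')
    refine ⟨e'', he'', ?_⟩
    have h1 : z ∈ Γ := by
      apply mem_gam_of_zset
      refine ⟨1, Mv.one (e := e'' - (e - e')) (Set.sub_mem_sub (hEA he'')
        (Set.sub_mem_sub he he')) ?_⟩
      rw [hz]
      abel
    have h2 : e - e' - e'' = R z := by rw [hz]; abel
    rw [h2]
    exact hRH _ (le_satGroup Γ h1)
  have hEH : E ⊆ H := by
    intro e he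
    apply mem_of_multiples (satGroup_sat Γ) hE
    intro j
    induction j with
    | zero => exact ⟨0, h0, by simp⟩
    | succ j ih =>
      obtain ⟨k, hk, hjk⟩ := ih
      obtain ⟨k', hk', h1⟩ := hsub 0 h0 e he
      obtain ⟨k'', hk'', h2⟩ := hsub k hk k' hk'
      refine ⟨k'', hk'', ?_⟩
      have e1 : (j + 1) • e - k'' = (j • e - k) - (0 - e - k') + (k - k' - k'') := by
        rw [succ_nsmul]
        abel
      rw [e1]
      exact H.add_mem (H.sub_mem hjk h1) h2
  -- everything is in `H`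
  obtain ⟨K, hKf, -, hKe⟩ := hA E hE
  intro t
  change t ∈ H
  obtain ⟨n₀, hn₀⟩ := hKe t
  choose f hf using fun n : ℕ => hF.exists_mv n t
  obtain ⟨n, m, hnm, hn, hfnm⟩ : ∃ n m : ℕ, n < m ∧ n₀ ≤ n ∧ f n = f m := by
    by_contra hcon
    push Not at hcon
    have hinj : Set.InjOn f (Set.Ici n₀) := by
      intro i hi j hj hij
      by_contra hne
      rcases lt_or_gt_of_ne hne with h | h
      · exact hcon i j h hi hij
      · exact hcon j i h hj hij.symm
    refine (Set.Ici_infinite n₀) (Set.Finite.of_finite_image (hKf.subset ?_) hinj)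
    rintro _ ⟨i, hi, rfl⟩
    exact hn₀ i hi _ (hf i)
  have h1 := (hf n).sub_mem hRH hEH
  have h2 := (hf m).sub_mem hRH hEH
  set y := f n with hy
  rw [← hfnm] at h2
  obtain ⟨k, rfl⟩ := Nat.exists_eq_add_of_lt hnm
  -- `y` is periodic modulo `H`
  have h3 : y - R^[k + 1] y ∈ H := by
    apply mem_of_iterate_mem hHR n
    have h4 := H.sub_mem h2 h1
    have e1 : R^[n] (y - R^[k + 1] y) = t - R^[n + k + 1] y - (t - R^[n] y) := by
      rw [iterate_map_sub, ← Function.iterate_add_apply, add_assoc]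
      abel
    rwa [e1]
  have h5 : ∀ (x : L), x - R^[k + 1] x ∈ H → ∀ j : ℕ, x - R^[(k + 1) * j] x ∈ H := by
    intro x hx j
    induction j with
    | zero => simp
    | succ j ih =>
      have e1 : x - R^[(k + 1) * (j + 1)] x =
          (x - R^[(k + 1) * j] x) + R^[(k + 1) * j] (x - R^[k + 1] x) := by
        rw [iterate_map_sub, ← Function.iterate_add_apply, Nat.mul_succ]
        abel
      rw [e1]
      exact H.add_mem ih (iterate_mem hRH _ hx)
  have hyH : y ∈ H := by
    apply mem_of_multiples (satGroup_sat Γ) hKf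
    intro j
    have h6 : j • y - R^[k + 1] (j • y) ∈ H := by
      have e1 : j • y - R^[k + 1] (j • y) = j • (y - R^[k + 1] y) := by
        rw [iterate_map_nsmul, nsmul_sub]
      rw [e1]
      exact H.nsmul_mem h3 j
    obtain ⟨n₁, hn₁⟩ := hKe (j • y)
    obtain ⟨z, hz⟩ := hF.exists_mv ((k + 1) * n₁) (j • y)
    have hzK : z ∈ K := hn₁ _ (by nlinarith) _ hz
    refine ⟨z, hzK, ?_⟩
    have h7 := hz.sub_mem hRH hEH
    have h8 := h5 _ h6 n₁
    apply mem_of_iterate_mem hHR ((k + 1) * n₁)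
    have e1 : R^[(k + 1) * n₁] (j • y - z) =
        (j • y - R^[(k + 1) * n₁] z) - (j • y - R^[(k + 1) * n₁] (j • y)) := by
      rw [iterate_map_sub]
      abel
    rw [e1]
    exact H.sub_mem h7 h8
  have e1 : t = (t - R^[n] y) + R^[n] y := by abel
  rw [e1]
  exact H.add_mem h1 (iterate_mem hRH n hyH)

/-- the group `Γ` of the doubled digit set is an `R`-invariant subgroup of finite index
containing the digits -/
theorem frk (hR : Function.Injective R) (hA : HasAttr R) (hE : E.Finite) (h0 : (0 : L) ∈ E)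
    (hF : Full R E) :
    (∀ x, R x ∈ Gam R (E - E) → x ∈ Gam R (E - E)) ∧
      (∀ x ∈ Gam R (E - E), R x ∈ Gam R (E - E)) ∧
      (∀ x, ∃ γ ∈ Gam R (E - E), ∃ y, x = γ + R y) ∧ E ⊆ Gam R (E - E) ∧
      (Gam R (E - E)).FiniteIndex := by
  obtain ⟨hΓ, htor⟩ := frk_top hR hA hE h0 hF
  obtain ⟨h1, h2⟩ := idx_arg R hR ⊤ (Gam R (E - E)) le_top (fun _ _ => trivial)
    (fun x _ => htor x) hΓ
  have hEA : E ⊆ E - E := fun e he => by simpa using Set.sub_mem_sub he h0
  have hFA : Full R (E - E) := by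
    intro x
    obtain ⟨e, he, y, hy⟩ := hF x
    exact ⟨e, hEA he, y, hy⟩
  refine ⟨hΓ, h1, fun x => ?_, fun e he => ?_, finiteIndex_of_torsion _ htor⟩
  · obtain ⟨γ, hγ, y, -, hy⟩ := h2 x trivial
    exact ⟨γ, hγ, y, hy⟩
  · obtain ⟨γ, hγ, y, -, hy⟩ := h2 e trivial
    have h3 : -y ∈ Gam R (E - E) := by
      refine gam_closed hFA hγ (Mv.one (e := e) ?_ ?_)
      · simpa using Set.sub_mem_sub (hEA he) (hEA h0)
      · rw [map_neg, hy]
        abel
    have h4 : y ∈ Gam R (E - E) := by simpa using (Gam R (E - E)).neg_mem h3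
    rw [hy]
    exact (Gam R (E - E)).add_mem hγ (h1 _ h4)

end Pool.Agent.helper23.TS
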