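import Mathlib
import Pool.Agent.helper23.TS.FRK
import Pool.Agent.helper51.TS.COV
import Pool.Agent.helper97.TS.ATT

/-! # From the synchronising property to the T-SOSC (analytic part of MP_332e42_an) -/

set_option autoImplicit false

namespace Pool.Agent.helper23.TS

open Pointwise Filter Topology

variable {d : ℕ} (S : Sys d)

/-- the synchronising property (interface of helper62) -/
def Star (R : (Fin d → ℤ) →+ (Fin d → ℤ)) (B D : Set (Fin d → ℤ))
    (Λ : AddSubgroup (Fin d → ℤ)) : Prop :=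
  ∀ K₀ : Set (Fin d → ℤ), K₀.Finite → K₀ ⊆ Λ → ∃ (n : ℕ) (b : Fin d → ℤ) (F : Finset (Fin d → ℤ)),
    Mv R B n b 0 ∧ (∀ f ∈ F, f ∈ Λ) ∧
    (∀ f ∈ F, ∀ g ∈ F, ∀ (m : ℕ) (u v : Fin d → ℤ), Mv R D m u 0 → Mv R D m v 0 →
      f - g = u - v → f = g) ∧
    ∀ t ∈ K₀, ∃ y ∈ F, Mv R D n (t + b) y

theorem toR_injective : Function.Injective (toR : (Fin d → ℤ) → (Fin d → ℝ)) := by
  intro x y h
  funext i
  have := congrFun h i
  simp only [toR] at this
  exact_mod_cast this

theorem toR_sub (x y : Fin d → ℤ) : toR (x - y) = toR x - toR y := by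
  funext i
  simp [toR]

theorem finite_toR_ball (r : ℝ) : {y : Fin d → ℤ | ‖toR y‖ ≤ r}.Finite := by
  have h1 : (Set.Icc (fun _ => -⌈|r|⌉ : Fin d → ℤ) (fun _ => ⌈|r|⌉)).Finite := Set.finite_Icc _ _
  refine h1.subset ?_
  intro y hy
  have h2 : ∀ i, |y i| ≤ ⌈|r|⌉ := by
    intro i
    have h3 : ‖toR y i‖ ≤ r := (norm_le_pi_norm (toR y) i).trans hy
    rw [Real.norm_eq_abs] at h3
    have h4 : ((|y i| : ℤ) : ℝ) ≤ |r| := by
      rw [Int.cast_abs]
      exact h3.trans (le_abs_self r)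
    have h5 : ((|y i| : ℤ) : ℝ) ≤ ((⌈|r|⌉ : ℤ) : ℝ) := h4.trans (Int.le_ceil _)
    exact_mod_cast h5
  constructor
  · intro i
    exact (abs_le.1 (h2 i)).1
  · intro i
    exact (abs_le.1 (h2 i)).2

/-- `A^n` applied to an integer vector -/
theorem symm_pow_toR (n : ℕ) (x : Fin d → ℤ) :
    (ATR_M S ^ n) (toR (S.R^[n] x)) = toR x := by
  induction n generalizing x with
  | zero => simp
  | succ n ih =>
    rw [ATR_pow_succ, Function.iterate_succ_apply', ← S.compat,
      ContinuousLinearEquiv.symm_apply_apply, ih]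

theorem symm_pow_surj (n : ℕ) (y : Fin d → ℝ) : ∃ z, (ATR_M S ^ n) z = y := by
  induction n generalizing y with
  | zero => exact ⟨y, by simp⟩
  | succ n ih =>
    obtain ⟨z, hz⟩ := ih y
    refine ⟨S.A z, ?_⟩
    rw [ATR_pow_succ, ContinuousLinearEquiv.symm_apply_apply, hz]

theorem symm_pow_inj (n : ℕ) : Function.Injective (ATR_M S ^ n) := by
  induction n with
  | zero => intro x y h; simpa using h
  | succ n ih =>
    intro x y h
    rw [ATR_pow_succ, ATR_pow_succ] at h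
    exact S.A.symm.injective (ih h)

/-- unfolding `n` digits of a point of the attractor -/
theorem attr_unfold {D : Set (Fin d → ℤ)} {T : Set (Fin d → ℝ)} (hT : IsAttr S D T) (n : ℕ) :
    ∀ x ∈ T, ∃ a y, Mv S.R D n a 0 ∧ y ∈ T ∧ x = (ATR_M S ^ n) (toR a + y) := by
  induction n with
  | zero =>
    intro x hx
    refine ⟨0, x, Mv.zero 0, hx, ?_⟩
    have : toR (0 : Fin d → ℤ) = 0 := by
      funext i
      simp [toR]
    simp [this]
  | succ n ih =>
    intro x hx
    obtain ⟨a, y, ha, hy, hxy⟩ := ih x hx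
    obtain ⟨e, he, z, hz, hyz⟩ := ATR_unstep S hT hy
    -- the new digit is the lowest one
    have h1 : Mv S.R D 1 (e + S.R a) a := Mv.one he rfl
    refine ⟨e + S.R a, z, ?_, hz, ?_⟩
    · have := h1.trans ha
      rwa [add_comm 1 n] at this
    · rw [hxy, hyz, ATR_pow_succ, ATR_toR_add, ← S.compat]
      congr 1
      have : toR e + S.A (toR a) + z = S.A (toR a) + (z + toR e) := by abel
      rw [this, S.A.symm.map_add (S.A (toR a)), ContinuousLinearEquiv.symm_apply_apply]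

/-- tiles through a point -/
def Tiles (T : Set (Fin d → ℝ)) (Λ : AddSubgroup (Fin d → ℤ)) (y : Fin d → ℝ) :
    Set (Fin d → ℤ) := {t | t ∈ Λ ∧ y - toR t ∈ T}

theorem tiles_finite {T : Set (Fin d → ℝ)} (hT : IsCompact T) (Λ : AddSubgroup (Fin d → ℤ))
    (y : Fin d → ℝ) : (Tiles T Λ y).Finite := by
  obtain ⟨C, hC⟩ := hT.isBounded.exists_norm_le
  refine (finite_toR_ball (‖y‖ + C)).subset ?_
  rintro t ⟨-, ht⟩
  have h1 := hC _ ht
  have h2 : toR t = y - (y - toR t) := by abel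
  rw [Set.mem_ofPred_eq, h2]
  exact (norm_sub_le _ _).trans (by linarith)

/-- (a): a clique bounds the number of tiles from below at every point -/
theorem card_le_tiles {D : Set (Fin d → ℤ)} {T : Set (Fin d → ℝ)} (hT : IsAttr S D T)
    (Λ : AddSubgroup (Fin d → ℤ)) (hfi : Λ.FiniteIndex)
    (hfull : ∀ x ∈ Λ, ∃ δ ∈ D, ∃ y ∈ Λ, x = δ + S.R y) (F : Finset (Fin d → ℤ))
    (hFΛ : ∀ f ∈ F, f ∈ Λ)
    (hF : ∀ f ∈ F, ∀ g ∈ F, ∀ (m : ℕ) (u v : Fin d → ℤ), Mv S.R D m u 0 → Mv S.R D m v 0 →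
      f - g = u - v → f = g) (y : Fin d → ℝ) :
    F.card ≤ (tiles_finite hT.2.1 Λ y).toFinset.card := by
  classical
  obtain ⟨C, hC⟩ := hT.2.1.isBounded.exists_norm_le
  have hmv : ∀ (k : ℕ) (x : Fin d → ℤ), x ∈ Λ → ∃ a h, Mv S.R D k a 0 ∧ h ∈ Λ ∧
      x = a + S.R^[k] h := by
    intro k
    induction k with
    | zero => exact fun x hx => ⟨0, x, Mv.zero 0, hx, by simp⟩
    | succ k ih =>
      intro x hx
      obtain ⟨δ, hδ, z, hz, hxz⟩ := hfull x hx
      obtain ⟨a, h, ha, hh, hzah⟩ := ih z hz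
      refine ⟨δ + S.R a, h, Mv.succ hδ rfl ha, hh, ?_⟩
      rw [hxz, hzah, map_add, Function.iterate_succ_apply', add_assoc]
  -- the points `h_g` at level `k`
  have hlev : ∀ k : ℕ, ∃ h : (Fin d → ℤ) → (Fin d → ℤ), (∀ g ∈ F, h g ∈ Λ) ∧
      (∀ g ∈ F, ∀ g' ∈ F, h g = h g' → g = g') ∧
      ∀ g ∈ F, (y + (ATR_M S ^ k) (toR g)) - toR (h g) ∈ T := by
    intro k
    obtain ⟨z, hz⟩ := symm_pow_surj S k y
    obtain ⟨t, ht, htT⟩ := covering S hT Λ hfi hfull z
    have hex : ∀ g : Fin d → ℤ, ∃ h, g ∈ F → h ∈ Λ ∧ ∃ a, Mv S.R D k a 0 ∧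
        t + g = a + S.R^[k] h := by
      intro g
      by_cases hg : g ∈ F
      · obtain ⟨a, h, ha, hh, hxz⟩ := hmv k (t + g) (Λ.add_mem ht (hFΛ g hg))
        exact ⟨h, fun _ => ⟨hh, a, ha, hxz⟩⟩
      · exact ⟨0, fun h => absurd h hg⟩
    choose h hh using hex
    refine ⟨h, fun g hg => (hh g hg).1, ?_, ?_⟩
    · intro g hg g' hg' hgg
      obtain ⟨-, a, ha, h1⟩ := hh g hg
      obtain ⟨-, a', ha', h2⟩ := hh g' hg'
      apply hF g hg g' hg' k a a' ha ha'
      have e1 : g - g' = (t + g) - (t + g') := by abel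
      rw [e1, h1, h2, hgg]
      abel
    · intro g hg
      obtain ⟨-, a, ha, h1⟩ := hh g hg
      have h2 := attr_word S hT ha htT
      have h3 : toR a + (z - toR t) = z + toR g - toR (S.R^[k] (h g)) := by
        have : toR t + toR g = toR a + toR (S.R^[k] (h g)) := by
          rw [← ATR_toR_add, ← ATR_toR_add, h1]
        have h4 : toR a = toR t + toR g - toR (S.R^[k] (h g)) := by
          rw [this]
          abel
        rw [h4]
        abel
      rw [h3] at h2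
      have h5 : (ATR_M S ^ k) (z + toR g - toR (S.R^[k] (h g))) =
          y + (ATR_M S ^ k) (toR g) - toR (h g) := by
        rw [map_sub, map_add, hz, symm_pow_toR]
      change (ATR_M S ^ k) (z + toR g - toR (S.R^[k] (h g))) ∈ T at h2
      rwa [h5] at h2
  choose h hΛ hinj hmem using hlev
  -- boundedness
  have hM0 : Tendsto (fun n => ‖ATR_M S ^ n‖) atTop (𝓝 0) := S.summ.tendsto_atTop_zero
  obtain ⟨M₁, hM₁⟩ : ∃ M₁ : ℝ, ∀ n, ‖ATR_M S ^ n‖ ≤ M₁ := by
    obtain ⟨M₁, hM₁⟩ := hM0.bddAbove_range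
    exact ⟨M₁, fun n => hM₁ ⟨n, rfl⟩⟩
  obtain ⟨G, hG⟩ : ∃ G : ℝ, ∀ g ∈ F, ‖toR g‖ ≤ G := by
    obtain ⟨G, hG⟩ := (F.finite_toSet.image (fun g => ‖toR g‖)).bddAbove
    exact ⟨G, fun g hg => hG ⟨g, hg, rfl⟩⟩
  have hbd : ∀ k, ∀ g ∈ F, ‖toR (h k g)‖ ≤ ‖y‖ + M₁ * G + C := by
    intro k g hg
    have h1 := hC _ (hmem k g hg)
    have h2 : toR (h k g) = (y + (ATR_M S ^ k) (toR g)) -
        (y + (ATR_M S ^ k) (toR g) - toR (h k g)) := by abel
    rw [h2]
    have h3 : ‖(ATR_M S ^ k) (toR g)‖ ≤ M₁ * G := by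
      refine ((ATR_M S ^ k).le_opNorm _).trans ?_
      exact mul_le_mul (hM₁ k) (hG g hg) (norm_nonneg _) ((norm_nonneg _).trans (hM₁ k))
    calc ‖(y + (ATR_M S ^ k) (toR g)) - (y + (ATR_M S ^ k) (toR g) - toR (h k g))‖
        ≤ ‖y + (ATR_M S ^ k) (toR g)‖ + ‖y + (ATR_M S ^ k) (toR g) - toR (h k g)‖ :=
          norm_sub_le _ _
      _ ≤ (‖y‖ + ‖(ATR_M S ^ k) (toR g)‖) + C := add_le_add (norm_add_le _ _) h1
      _ ≤ ‖y‖ + M₁ * G + C := by linarith
  -- pigeonhole on the restriction to `F`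
  set P := (finite_toR_ball (d := d) (‖y‖ + M₁ * G + C)).toFinset with hP
  obtain ⟨φ, hφ⟩ : ∃ φ : F → (Fin d → ℤ), {k : ℕ | ∀ g : F, h k g = φ g}.Infinite := by
    set f₀ : ℕ → (F → (Fin d → ℤ)) := fun k g => h k g with hf₀
    have hfin : (Set.range f₀).Finite := by
      have h1 : {f : F → (Fin d → ℤ) | ∀ g, f g ∈ (P : Set (Fin d → ℤ))}.Finite :=
        Set.Finite.pi' (fun _ => P.finite_toSet)
      refine h1.subset ?_
      rintro _ ⟨k, rfl⟩ g
      rw [Finset.mem_coe, hP, Set.Finite.mem_toFinset]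
      exact hbd k g g.2
    have : Finite (Set.range f₀) := hfin
    obtain ⟨φ, hφ⟩ := Finite.exists_infinite_fiber (Set.rangeFactorization f₀)
    refine ⟨φ.1, ?_⟩
    have h2 := Set.infinite_coe_iff.1 hφ
    refine h2.mono ?_
    intro k hk g
    have h3 : Set.rangeFactorization f₀ k = φ := hk
    have h4 := congrArg Subtype.val h3
    exact congrFun h4 g
  -- the limits are tiles
  have hφmem : ∀ g : F, φ g ∈ (tiles_finite hT.2.1 Λ y).toFinset := by
    intro g
    rw [Set.Finite.mem_toFinset]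
    have hfreq : ∃ᶠ k in atTop, h k g = φ g := by
      rw [Nat.frequently_atTop_iff_infinite]
      refine hφ.mono ?_
      intro k hk
      exact hk g
    obtain ⟨k₀, hk₀⟩ := hφ.nonempty
    refine ⟨by rw [← hk₀ g]; exact hΛ k₀ g g.2, ?_⟩
    have hlim : Tendsto (fun k => y + (ATR_M S ^ k) (toR (g : Fin d → ℤ)) - toR (φ g)) atTop
        (𝓝 (y + 0 - toR (φ g))) := by
      refine Tendsto.sub_const (Tendsto.const_add y ?_) _
      rw [tendsto_zero_iff_norm_tendsto_zero]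
      refine squeeze_zero (fun _ => norm_nonneg _) (fun k => (ATR_M S ^ k).le_opNorm _) ?_
      have := hM0.mul_const ‖toR (g : Fin d → ℤ)‖
      rwa [zero_mul] at this
    rw [add_zero] at hlim
    apply hT.2.1.isClosed.mem_of_frequently_of_tendsto ?_ hlim
    refine hfreq.mono (fun k hk => ?_)
    rw [← hk]
    exact hmem k g g.2
  have hφinj : Function.Injective φ := by
    intro g g' hgg
    obtain ⟨k₀, hk₀⟩ := hφ.nonempty
    apply Subtype.ext
    apply hinj k₀ g g.2 g' g'.2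
    rw [hk₀ g, hk₀ g', hgg]
  have h1 : F.attach.card ≤ (tiles_finite hT.2.1 Λ y).toFinset.card :=
    Finset.card_le_card_of_injOn φ (fun g _ => hφmem g) hφinj.injOn
  rwa [Finset.card_attach] at h1

theorem mv_unique {R : (Fin d → ℤ) →+ (Fin d → ℤ)} (hR : Function.Injective R)
    {D : Set (Fin d → ℤ)} (hs : Simple R D) {n : ℕ} {x y : Fin d → ℤ} (h : Mv R D n x y) :
    ∀ y', Mv R D n x y' → y = y' := by
  induction h with
  | zero x => intro y' h'; exact h'.eq_of_zero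
  | @succ n x z y e he hx _ ih =>
    intro y' h'
    obtain ⟨e', he', z', hz', h''⟩ := h'.exists_of_succ
    have h1 : e = e' := by
      apply hs e he e' he' (z' - z)
      rw [map_sub, ← add_sub_assoc, ← hz', hx]
      abel
    rw [hx, h1] at hz'
    have h2 := hR (add_left_cancel hz')
    rw [← h2] at h''
    exact ih y' h''

/-- from the synchronising property to an interior point of `T_D` in `T_B` -/
theorem tsosc_of_star {B D : Set (Fin d → ℤ)} (hBD : B ⊆ D) (hDf : D.Finite)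
    (hs : Simple S.R D) (Λ : AddSubgroup (Fin d → ℤ)) (hfi : Λ.FiniteIndex) (hDΛ : D ⊆ Λ)
    (hRΛ : ∀ x ∈ Λ, S.R x ∈ Λ) (hfull : ∀ x ∈ Λ, ∃ δ ∈ D, ∃ y ∈ Λ, x = δ + S.R y)
    (hstar : Star S.R B D Λ) {TB TD : Set (Fin d → ℝ)} (hTB : IsAttr S B TB)
    (hTD : IsAttr S D TD) : (TB ∩ interior TD).Nonempty := by
  classical
  -- `T_B ⊆ T_D`
  have hsub : TB ⊆ TD := by
    intro x hx
    rw [attr_mem_iff S (hDf.subset hBD) hTB] at hx
    rw [attr_mem_iff S hDf hTD]
    obtain ⟨b, hb, h⟩ := hx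
    exact ⟨b, fun i => hBD (hb i), h⟩
  -- the finite set of states
  obtain ⟨C₁, hC₁⟩ := hTB.2.1.isBounded.exists_norm_le
  obtain ⟨C₂, hC₂⟩ := hTD.2.1.isBounded.exists_norm_le
  set K₀ : Set (Fin d → ℤ) := {t | t ∈ Λ ∧ ∃ x ∈ TB, x - toR t ∈ TD} with hK₀
  have hK₀f : K₀.Finite := by
    refine (finite_toR_ball (C₁ + C₂)).subset ?_
    rintro t ⟨-, x, hx, hxt⟩
    have h2 : toR t = x - (x - toR t) := by abel
    rw [Set.mem_ofPred_eq, h2]
    exact (norm_sub_le _ _).trans (add_le_add (hC₁ x hx) (hC₂ _ hxt))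
  obtain ⟨n, b, F, hb, hFΛ, hF, hsync⟩ := hstar K₀ hK₀f (fun t ht => ht.1)
  obtain ⟨x', hx'⟩ := hTB.1
  set x := (ATR_M S ^ n) (toR b + x') with hx
  have hxB : x ∈ TB := attr_word S hTB hb hx'
  refine ⟨x, hxB, ?_⟩
  -- (b) the tiles through `x` are in `F`
  have hbΛ : b ∈ Λ := by
    have := hb.sub_mem hRΛ (hBD.trans hDΛ)
    rwa [iterate_map_zero, sub_zero] at this
  have hxF : (tiles_finite hTD.2.1 Λ x).toFinset ⊆ F := by
    intro t ht
    rw [Set.Finite.mem_toFinset] at ht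
    obtain ⟨htΛ, ht⟩ := ht
    obtain ⟨a, y', ha, hy', hxy⟩ := attr_unfold S hTD n _ ht
    have haΛ : a ∈ Λ := by
      have := ha.sub_mem hRΛ hDΛ
      rwa [iterate_map_zero, sub_zero] at this
    set t' := a + S.R^[n] t - b with ht'
    have h1 : x' - toR t' = y' := by
      have h2 : (ATR_M S ^ n) (toR b + x') - (ATR_M S ^ n) (toR (S.R^[n] t)) =
          (ATR_M S ^ n) (toR a + y') := by
        rw [symm_pow_toR]
        exact hxy
      rw [← map_sub] at h2
      have h3 := symm_pow_inj S n h2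
      have h4 : toR t' = toR a + toR (S.R^[n] t) - toR b := by
        rw [ht', toR_sub, ATR_toR_add]
      rw [h4]
      have h5 : y' = toR b + x' - toR (S.R^[n] t) - toR a := by
        rw [h3]
        abel
      rw [h5]
      abel
    have ht'Λ : t' ∈ Λ := Λ.sub_mem (Λ.add_mem haΛ (iterate_mem hRΛ n htΛ)) hbΛ
    obtain ⟨y, hyF, hy⟩ := hsync t' ⟨ht'Λ, x', hx', by rw [h1]; exact hy'⟩
    have h6 : t' + b = a + S.R^[n] t := by
      rw [ht']
      abel
    have h7 : Mv S.R D n (t' + b) t := by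
      rw [h6]
      have := ha.translate t
      rwa [zero_add] at this
    have := mv_unique S.inj hs hy t h7
    rwa [← this]
  have hcard : (tiles_finite hTD.2.1 Λ x).toFinset.card = F.card :=
    le_antisymm (Finset.card_le_card hxF) (card_le_tiles S hTD Λ hfi hfull F hFΛ hF x)
  -- (c) nearby points have the same tiles
  rw [mem_interior_iff_mem_nhds]
  -- the tiles near `x`
  set Q := (finite_toR_ball (d := d) (‖x‖ + 1 + C₂)).toFinset with hQ
  have hnear : ∀ᶠ y in 𝓝 x, ∀ t ∈ Q, t ∈ Λ → x - toR t ∉ TD → y - toR t ∉ TD := by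
    rw [Finset.eventually_all]
    intro t _
    by_cases h : x - toR t ∈ TD
    · exact Filter.Eventually.of_forall (fun y _ h' => absurd h h')
    · have hopen : IsOpen {y : Fin d → ℝ | y - toR t ∉ TD} := by
        apply (hTD.2.1.isClosed.isOpen_compl).preimage
        exact continuous_id.sub continuous_const
      filter_upwards [hopen.mem_nhds h] with y hy _ _
      exact hy
  have hball : ∀ᶠ y in 𝓝 x, ‖y‖ ≤ ‖x‖ + 1 := by
    filter_upwards [Metric.ball_mem_nhds x one_pos] with y hy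
    rw [Metric.mem_ball, dist_eq_norm] at hy
    calc ‖y‖ = ‖x + (y - x)‖ := by congr 1; abel
      _ ≤ ‖x‖ + ‖y - x‖ := norm_add_le _ _
      _ ≤ ‖x‖ + 1 := by linarith
  filter_upwards [hnear, hball] with y hy hyn
  have hsubset : (tiles_finite hTD.2.1 Λ y).toFinset ⊆ (tiles_finite hTD.2.1 Λ x).toFinset := by
    intro t ht
    rw [Set.Finite.mem_toFinset] at ht ⊢
    obtain ⟨htΛ, ht⟩ := ht
    refine ⟨htΛ, ?_⟩
    by_contra hcon
    refine hy t ?_ htΛ hcon ht
    rw [hQ, Set.Finite.mem_toFinset, Set.mem_ofPred_eq]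
    have h2 : toR t = y - (y - toR t) := by abel
    rw [h2]
    refine (norm_sub_le _ _).trans ?_
    have := hC₂ _ ht
    linarith
  have heq : (tiles_finite hTD.2.1 Λ y).toFinset = (tiles_finite hTD.2.1 Λ x).toFinset := by
    apply Finset.eq_of_subset_of_card_le hsubset
    rw [hcard]
    exact card_le_tiles S hTD Λ hfi hfull F hFΛ hF y
  have h0 : (0 : Fin d → ℤ) ∈ (tiles_finite hTD.2.1 Λ x).toFinset := by
    rw [Set.Finite.mem_toFinset]
    refine ⟨Λ.zero_mem, ?_⟩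
    have : toR (0 : Fin d → ℤ) = 0 := by
      funext i
      simp [toR]
    rw [this, sub_zero]
    exact hsub hxB
  rw [← heq, Set.Finite.mem_toFinset] at h0
  have h1 := h0.2
  have : toR (0 : Fin d → ℤ) = 0 := by
    funext i
    simp [toR]
  rwa [this, sub_zero] at h1

end Pool.Agent.helper23.TS
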