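import Mathlib
import Pool.Agent.helper23.TS.STAR
import Pool.Agent.helper62.TS.Star2

/-! # Assembly of the T-SOSC theorem (MP_332e42_an) -/

set_option autoImplicit false

namespace Pool.Agent.helper23.TS

open Pointwise Filter Topology

variable {d : ℕ}

/-! ### bridge to the algebraic core of helper62 -/

theorem en_iff (R : (Fin d → ℤ) →+ (Fin d → ℤ)) (E : Set (Fin d → ℤ)) (n : ℕ) :
    ∀ x, x ∈ Pool.Agent.helper62.TS.En R.toIntLinearMap E n ↔ Mv R E n x 0 := by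
  induction n with
  | zero =>
    intro x
    rw [Pool.Agent.helper62.TS.mem_En_zero]
    constructor
    · rintro rfl
      exact Mv.zero 0
    · intro h
      exact h.eq_of_zero
  | succ n ih =>
    intro x
    rw [Pool.Agent.helper62.TS.mem_En_succ]
    constructor
    · rintro ⟨e, he, y, hy, hx⟩
      exact Mv.succ he hx ((ih y).1 hy)
    · intro h
      obtain ⟨e, he, y, hx, hy⟩ := h.exists_of_succ
      exact ⟨e, he, y, (ih y).2 hy, hx⟩

theorem pow_eq_iterate (R : (Fin d → ℤ) →+ (Fin d → ℤ)) (n : ℕ) (x : Fin d → ℤ) :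
    ((R.toIntLinearMap : Module.End ℤ (Fin d → ℤ)) ^ n) x = R^[n] x := by
  rw [Module.End.pow_apply]
  rfl

theorem mv_iff (R : (Fin d → ℤ) →+ (Fin d → ℤ)) (E : Set (Fin d → ℤ)) (n : ℕ)
    (x y : Fin d → ℤ) :
    Pool.Agent.helper62.TS.Mv R.toIntLinearMap E n x y ↔ Mv R E n x y := by
  constructor
  · rintro ⟨e, he, hx⟩
    rw [pow_eq_iterate] at hx
    have h1 := ((en_iff R E n e).1 he).translate y
    rwa [zero_add, ← hx] at h1
  · intro h
    have key : ∀ {n : ℕ} {x y : Fin d → ℤ}, Mv R E n x y → ∃ e, Mv R E n e 0 ∧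
        x = e + R^[n] y := by
      intro n x y h
      induction h with
      | zero x => exact ⟨0, Mv.zero 0, by simp⟩
      | @succ n x y z e he hx _ ih =>
        obtain ⟨e', he', h1⟩ := ih
        refine ⟨e + R e', Mv.succ he rfl he', ?_⟩
        rw [hx, h1, map_add, Function.iterate_succ_apply', add_assoc]
    obtain ⟨e, he, hx⟩ := key h
    exact ⟨e, (en_iff R E n e).2 he, by rw [pow_eq_iterate]; exact hx⟩

/-- every digit set with at least two elements, one of them `0` -/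
theorem tsosc_zero (S : Sys d) {B : Set (Fin d → ℤ)} (hB : B.Finite) (h0 : (0 : Fin d → ℤ) ∈ B)
    (hs : Simple S.R B) (hB2 : ∃ b ∈ B, b ≠ 0) :
    ∃ D : Set (Fin d → ℤ), D.Finite ∧ B ⊆ D ∧ Simple S.R D ∧ Full S.R D ∧
      ∀ TB TD, IsAttr S B TB → IsAttr S D TD → (TB ∩ interior TD).Nonempty := by
  have hfinq : Finite ((Fin d → ℤ) ⧸ LinearMap.range (S.R.toIntLinearMap)) :=
    ALG_finite_quot S.R S.inj
  obtain ⟨D, hDf, hBD, hDi, hDF, p, hDp, hRp, hpf, hstar⟩ :=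
    Pool.Agent.helper62.TS.star (L := Fin d → ℤ) (by
      intro j x hj hx
      rcases smul_eq_zero.1 hx with h | h
      · exact absurd h hj
      · exact h) (S.R.toIntLinearMap) S.inj (by
      intro E hE
      obtain ⟨K, hK, -, hKe⟩ := S.hasAttr E hE
      refine ⟨K, hK, fun x => ?_⟩
      obtain ⟨n₀, hn₀⟩ := hKe x
      exact ⟨n₀, fun n hn y hy => hn₀ n hn y ((mv_iff S.R E n x y).1 hy)⟩) hB h0 hs hB2
  refine ⟨D, hDf, hBD, hDi, hDF, ?_⟩
  intro TB TD hTB hTD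
  have hfi : p.toAddSubgroup.FiniteIndex := by
    have : Finite ((Fin d → ℤ) ⧸ p.toAddSubgroup) := hpf
    exact AddSubgroup.finiteIndex_of_finite_quotient
  refine tsosc_of_star S hBD hDf hDi p.toAddSubgroup hfi hDp (fun x hx => (hRp x).2 hx) ?_ ?_
    hTB hTD
  · intro x hx
    obtain ⟨δ, hδ, y, hy⟩ := hDF x
    refine ⟨δ, hδ, y, ?_, hy⟩
    apply (hRp y).1
    have : S.R.toIntLinearMap y = x - δ := by
      have h1 : x = δ + S.R.toIntLinearMap y := hy
      rw [h1]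
      abel
    rw [this]
    exact p.sub_mem hx (hDp hδ)
  · intro K₀ hK₀ hK₀p
    obtain ⟨n, b, hb, F, hF, hFp, hcl, hsync⟩ := hstar K₀ hK₀ hK₀p
    refine ⟨n, b, hF.toFinset, (en_iff S.R B n b).1 hb, ?_, ?_, ?_⟩
    · intro f hf
      rw [Set.Finite.mem_toFinset] at hf
      exact hFp hf
    · intro f hf g hg m u v hu hv hfg
      rw [Set.Finite.mem_toFinset] at hf hg
      exact hcl f hf g hg ⟨m, u, (en_iff S.R D m u).2 hu, v, (en_iff S.R D m v).2 hv, hfg⟩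
    · intro t ht
      obtain ⟨y, hy, hmv⟩ := hsync t ht
      exact ⟨y, by rwa [Set.Finite.mem_toFinset], (mv_iff S.R D n _ _).1 hmv⟩

/-! ### translation of the digits -/

theorem exists_fixed (S : Sys d) (b₀ : Fin d → ℤ) : ∃ v, S.A.symm (v + toR b₀) = v := by
  obtain ⟨T, hT⟩ := attr_exists S (Set.finite_singleton b₀) (Set.singleton_nonempty b₀)
  obtain ⟨x, hx⟩ := hT.1
  rw [attr_mem_iff S (Set.finite_singleton b₀) hT] at hx
  obtain ⟨b, hb, hsum⟩ := hx
  have hb' : ∀ i, b i = b₀ := fun i => Set.mem_singleton_iff.1 (hb i)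
  simp only [hb'] at hsum
  refine ⟨x, ?_⟩
  have h1 := hsum.mapL (S.A.symm : (Fin d → ℝ) →L[ℝ] (Fin d → ℝ))
  have h2 : HasSum (fun i => ((S.A.symm : (Fin d → ℝ) →L[ℝ] (Fin d → ℝ)) ^ (i + 1 + 1))
      (toR b₀)) (S.A.symm x) := by
    refine h1.congr_fun ?_
    intro i
    exact (ATR_pow_succ' S (i + 1) _)
  have h3 := (hasSum_nat_add_iff (f := fun i =>
    ((S.A.symm : (Fin d → ℝ) →L[ℝ] (Fin d → ℝ)) ^ (i + 1)) (toR b₀)) 1).1 h2
  rw [Finset.sum_range_one, zero_add, pow_one] at h3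
  have h4 := h3.unique hsum
  rw [S.A.symm.map_add]
  exact h4

theorem isAttr_translate (S : Sys d) {b₀ : Fin d → ℤ} {v : Fin d → ℝ}
    (hv : S.A.symm (v + toR b₀) = v) {B : Set (Fin d → ℤ)} {T : Set (Fin d → ℝ)}
    (hT : IsAttr S B T) :
    IsAttr S ((fun b => b - b₀) '' B) ((fun x => x - v) '' T) := by
  obtain ⟨h1, h2, h3⟩ := hT
  refine ⟨h1.image _, h2.image (by fun_prop), ?_⟩
  have key : ∀ (b : Fin d → ℤ) (x : Fin d → ℝ),
      S.A.symm (x - v + toR (b - b₀)) = S.A.symm (x + toR b) - v := by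
    intro b x
    have : x - v + toR (b - b₀) = (x + toR b) - (v + toR b₀) := by
      rw [toR_sub]
      abel
    rw [this, map_sub, hv]
  ext y
  simp only [Set.mem_image, Set.mem_iUnion]
  constructor
  · rintro ⟨x, hx, rfl⟩
    rw [h3] at hx
    simp only [Set.mem_iUnion, Set.mem_image] at hx
    obtain ⟨b, hb, z, hz, rfl⟩ := hx
    exact ⟨b - b₀, ⟨b, hb, rfl⟩, z - v, ⟨z, hz, rfl⟩, key b z⟩
  · rintro ⟨_, ⟨b, hb, rfl⟩, _, ⟨z, hz, rfl⟩, rfl⟩
    refine ⟨S.A.symm (z + toR b), ATR_step S ⟨h1, h2, h3⟩ hb hz, (key b z).symm⟩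

/-- T-SOSC for all digit sets with at least two elements -/
theorem tsosc_two (S : Sys d) {B : Set (Fin d → ℤ)} (hB : B.Finite) (hs : Simple S.R B)
    (hB2 : ∃ b₀ ∈ B, ∃ b ∈ B, b ≠ b₀) :
    ∃ D : Set (Fin d → ℤ), D.Finite ∧ B ⊆ D ∧ Simple S.R D ∧ Full S.R D ∧
      ∀ TB TD, IsAttr S B TB → IsAttr S D TD → (TB ∩ interior TD).Nonempty := by
  obtain ⟨b₀, hb₀, b₁, hb₁, hne⟩ := hB2
  obtain ⟨D', hDf, hBD, hDs, hDF, hmain⟩ := tsosc_zero S (B := (fun b => b - b₀) '' B)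
    (hB.image _) ⟨b₀, hb₀, sub_self b₀⟩ (by
      rintro _ ⟨b, hb, rfl⟩ _ ⟨b', hb', rfl⟩ y hy
      have : b = b' := by
        apply hs b hb b' hb' y
        have h1 : b - b₀ = b' - b₀ + S.R y := hy
        have : b = b - b₀ + b₀ := by abel
        rw [this, h1]
        abel
      rw [this]) ⟨b₁ - b₀, ⟨b₁, hb₁, rfl⟩, sub_ne_zero.2 hne⟩
  obtain ⟨v, hv⟩ := exists_fixed S b₀
  refine ⟨(fun b => b + b₀) '' D', hDf.image _, ?_, ?_, ?_, ?_⟩
  · intro b hb
    exact ⟨b - b₀, hBD ⟨b, hb, rfl⟩, by simp⟩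
  · rintro _ ⟨b, hb, rfl⟩ _ ⟨b', hb', rfl⟩ y hy
    have : b = b' := by
      apply hDs b hb b' hb' y
      have h1 : b = b + b₀ - b₀ := by abel
      rw [h1]
      simp only at hy
      rw [hy]
      abel
    rw [this]
  · intro x
    obtain ⟨δ, hδ, y, hy⟩ := hDF (x - b₀)
    refine ⟨δ + b₀, ⟨δ, hδ, rfl⟩, y, ?_⟩
    have : x = x - b₀ + b₀ := by abel
    rw [this, hy]
    abel
  · intro TB TD hTB hTD
    have h1 := isAttr_translate S hv hTB
    have h2 := isAttr_translate S hv hTD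
    have h3 : (fun b => b - b₀) '' ((fun b => b + b₀) '' D') = D' := by
      rw [Set.image_image]
      simp
    rw [h3] at h2
    obtain ⟨z, hz1, hz2⟩ := hmain _ _ h1 h2
    obtain ⟨x, hx, rfl⟩ := hz1
    refine ⟨x, hx, ?_⟩
    have h4 : (fun x => x - v) '' TD = (Homeomorph.subRight v) '' TD := rfl
    rw [h4, ← Homeomorph.image_interior] at hz2
    obtain ⟨w, hw, hwx⟩ := hz2
    have : w = x := sub_left_injective hwx
    rwa [← this]

end Pool.Agent.helper23.TS
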