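import Mathlib
import Pool.Agent.helper23.TS.STAR
import Pool.Agent.helper97.TS.CEX

/-! # Dimension one, one digit (MP_332e42_an) -/

set_option autoImplicit false

namespace Pool.Agent.helper23.TS

open Pointwise Filter Topology

/-- the digits `lo ≤ x < lo + |r|` -/
def box1 (lo hi : ℤ) : Set (Fin 1 → ℤ) := {x | lo ≤ x 0 ∧ x 0 ≤ hi}

theorem box1_finite (lo hi : ℤ) : (box1 lo hi).Finite := by
  refine (Set.finite_Icc (fun _ => lo : Fin 1 → ℤ) (fun _ => hi)).subset ?_
  rintro x ⟨h1, h2⟩
  constructor
  · intro i
    rw [Subsingleton.elim i 0]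
    exact h1
  · intro i
    rw [Subsingleton.elim i 0]
    exact h2

theorem fin1_ext {x y : Fin 1 → ℤ} (h : x 0 = y 0) : x = y := by
  funext i
  rw [Subsingleton.elim i 0]
  exact h

theorem box1_simple {R : (Fin 1 → ℤ) →+ (Fin 1 → ℤ)} {r : ℤ} (hR : ∀ x, R x = r • x)
    {lo hi : ℤ} (h : hi - lo < |r|) : Simple R (box1 lo hi) := by
  rintro b ⟨h1, h2⟩ b' ⟨h3, h4⟩ y hy
  rw [hR] at hy
  have h5 : b 0 = b' 0 + r * y 0 := by
    have := congrFun hy 0
    simpa using this
  apply fin1_ext
  have h6 : |r| * |y 0| < |r| := by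
    rw [← abs_mul]
    have : r * y 0 = b 0 - b' 0 := by rw [h5]; ring
    rw [this, abs_lt]
    constructor <;> linarith
  have h7 : |y 0| < 1 := by
    by_contra hcon
    push Not at hcon
    have := mul_le_mul_of_nonneg_left hcon (abs_nonneg r)
    linarith
  have h8 : y 0 = 0 := by
    rwa [Int.abs_lt_one_iff] at h7
  rw [h5, h8]
  ring

theorem box1_full {R : (Fin 1 → ℤ) →+ (Fin 1 → ℤ)} {r : ℤ} (hr : r ≠ 0) (hR : ∀ x, R x = r • x)
    {lo hi : ℤ} (h : hi - lo = |r| - 1) : Full R (box1 lo hi) := by
  intro x
  refine ⟨fun _ => lo + (x 0 - lo) % r, ⟨?_, ?_⟩, fun _ => (x 0 - lo) / r, ?_⟩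
  · have := Int.emod_nonneg (x 0 - lo) hr
    simp only
    linarith
  · have := Int.emod_lt_abs (x 0 - lo) hr
    simp only
    linarith
  · rw [hR]
    apply fin1_ext
    simp only [Pi.add_apply, Pi.smul_apply, smul_eq_mul]
    have := Int.emod_add_mul_ediv (x 0 - lo) r
    linarith

/-- every integer has a finite expansion with digits `-1, 0, …, r - 2` in base `r ≥ 3` and with
digits `0, …, |r| - 1` in base `r ≤ -2` -/
theorem exists_digits_one {R : (Fin 1 → ℤ) →+ (Fin 1 → ℤ)} {r : ℤ} (hR : ∀ x, R x = r • x)
    (hr : 2 ≤ |r|) (hr2 : r ≠ 2) : ∃ D : Set (Fin 1 → ℤ), D.Finite ∧ (0 : Fin 1 → ℤ) ∈ D ∧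
      Simple R D ∧ Full R D ∧ ∀ t, ∃ n, Mv R D n t 0 := by
  have hr0 : r ≠ 0 := by
    rintro rfl
    simp at hr
  rcases lt_or_ge r 0 with hneg | hpos
  · -- negative base
    have habs : |r| = -r := abs_of_neg hneg
    refine ⟨box1 0 (|r| - 1), box1_finite _ _, ⟨le_refl _, ?_⟩, box1_simple hR (by linarith),
      box1_full hr0 hR (by ring), ?_⟩
    · simp only [Pi.zero_apply]
      linarith
    have hF : Full R (box1 0 (|r| - 1)) := box1_full hr0 hR (by ring)
    have key : ∀ (k : ℕ) (t : Fin 1 → ℤ), (t 0).natAbs ≤ k →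
        ∃ n, Mv R (box1 0 (|r| - 1)) n t 0 := by
      intro k
      induction k using Nat.strong_induction_on with
      | _ k ih =>
        intro t ht
        by_cases h0 : t 0 = 0
        · refine ⟨0, ?_⟩
          have : t = 0 := fin1_ext (by simpa using h0)
          rw [this]
          exact Mv.zero 0
        · obtain ⟨δ, ⟨hδ1, hδ2⟩, y, hy⟩ := hF t
          have h5 : t 0 = δ 0 + r * y 0 := by
            have := congrFun hy 0
            rw [hR] at this
            simpa using this
          by_cases hlt : (y 0).natAbs < (t 0).natAbs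
          · obtain ⟨n, hn⟩ := ih (y 0).natAbs (lt_of_lt_of_le hlt ht) y le_rfl
            exact ⟨n + 1, Mv.succ ⟨hδ1, hδ2⟩ hy hn⟩
          · -- then `t = -1`, `y = 1`
            have hb : t 0 = -1 ∧ y 0 = 1 := by
              rw [habs] at hδ2 hr
              have hy0 : y 0 ≠ 0 := by
                intro h
                rw [h] at hlt
                simp at hlt
                omega
              rcases lt_or_gt_of_ne h0 with ht0 | ht0
              · rcases lt_or_gt_of_ne hy0 with hy1 | hy1
                · exfalso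
                  nlinarith
                · have h6 : -(t 0) ≤ y 0 := by omega
                  have h7 : -(t 0) ≥ -r * y 0 - (-r - 1) := by nlinarith
                  have h8 : (-r - 1) * (y 0 - 1) ≤ 0 := by nlinarith
                  have h9 : y 0 = 1 := by nlinarith
                  exact ⟨by rw [h9] at h6; omega, h9⟩
              · exfalso
                rcases lt_or_gt_of_ne hy0 with hy1 | hy1
                · have h6 : t 0 ≤ -(y 0) := by omega
                  nlinarith
                · have h6 : t 0 ≤ y 0 := by omega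
                  nlinarith
            refine ⟨2, Mv.succ ⟨hδ1, hδ2⟩ hy (Mv.one (e := y) ?_ (by simp))⟩
            refine ⟨by rw [hb.2]; norm_num, ?_⟩
            rw [hb.2]
            linarith
    exact fun t => key _ t le_rfl
  · -- positive base
    have hr3 : 3 ≤ r := by
      have habs : |r| = r := abs_of_nonneg hpos
      omega
    have habs : |r| = r := abs_of_nonneg hpos
    refine ⟨box1 (-1) (r - 2), box1_finite _ _, ⟨by simp, ?_⟩, box1_simple hR (by linarith),
      box1_full hr0 hR (by linarith), ?_⟩
    · simp only [Pi.zero_apply]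
      linarith
    have hF : Full R (box1 (-1) (r - 2)) := box1_full hr0 hR (by linarith)
    have key : ∀ (k : ℕ) (t : Fin 1 → ℤ), (t 0).natAbs ≤ k →
        ∃ n, Mv R (box1 (-1) (r - 2)) n t 0 := by
      intro k
      induction k using Nat.strong_induction_on with
      | _ k ih =>
        intro t ht
        by_cases h0 : t 0 = 0
        · refine ⟨0, ?_⟩
          have : t = 0 := fin1_ext (by simpa using h0)
          rw [this]
          exact Mv.zero 0
        · obtain ⟨δ, ⟨hδ1, hδ2⟩, y, hy⟩ := hF t
          have h5 : t 0 = δ 0 + r * y 0 := by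
            have := congrFun hy 0
            rw [hR] at this
            simpa using this
          have hlt : (y 0).natAbs < (t 0).natAbs := by
            by_contra hcon
            push Not at hcon
            rcases lt_or_gt_of_ne h0 with ht0 | ht0
            · rcases lt_trichotomy (y 0) 0 with hy1 | hy1 | hy1
              · have h6 : -(t 0) ≤ -(y 0) := by omega
                nlinarith
              · rw [hy1] at hcon
                simp at hcon
                omega
              · nlinarith
            · rcases lt_trichotomy (y 0) 0 with hy1 | hy1 | hy1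
              · nlinarith
              · rw [hy1] at hcon
                simp at hcon
                omega
              · have h6 : t 0 ≤ y 0 := by omega
                nlinarith
          obtain ⟨n, hn⟩ := ih (y 0).natAbs (lt_of_lt_of_le hlt ht) y le_rfl
          exact ⟨n + 1, Mv.succ ⟨hδ1, hδ2⟩ hy hn⟩
    exact fun t => key _ t le_rfl

/-- T-SOSC for `B = {0}` in dimension one, base different from two -/
theorem tsosc_one (S : Sys 1) {r : ℤ} (hR : ∀ x, S.R x = r • x) (hr : 2 ≤ |r|) (hr2 : r ≠ 2) :
    ∃ D : Set (Fin 1 → ℤ), D.Finite ∧ (0 : Fin 1 → ℤ) ∈ D ∧ Simple S.R D ∧ Full S.R D ∧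
      ∀ TB TD, IsAttr S {0} TB → IsAttr S D TD → (TB ∩ interior TD).Nonempty := by
  obtain ⟨D, hDf, h0, hs, hF, hexp⟩ := exists_digits_one hR hr hr2
  refine ⟨D, hDf, h0, hs, hF, ?_⟩
  intro TB TD hTB hTD
  refine tsosc_of_star S (Set.singleton_subset_iff.2 h0) hDf hs ⊤ inferInstance
    (fun _ _ => trivial) (fun _ _ => trivial) (fun x _ => ?_) ?_ hTB hTD
  · obtain ⟨δ, hδ, y, hy⟩ := hF x
    exact ⟨δ, hδ, y, trivial, hy⟩
  · intro K₀ hK₀ _
    choose n hn using hexp
    refine ⟨hK₀.toFinset.sup n, 0, {0}, ?_, by simp, ?_, ?_⟩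
    · exact Mv.zero_zero (Set.mem_singleton 0) _
    · intro f hf g hg _ _ _ _ _ _
      rw [Finset.mem_singleton] at hf hg
      rw [hf, hg]
    · intro t ht
      refine ⟨0, Finset.mem_singleton_self 0, ?_⟩
      rw [add_zero]
      refine Mv.pad h0 (Finset.le_sup (f := n) ?_) (hn t)
      rwa [Set.Finite.mem_toFinset]

end Pool.Agent.helper23.TS
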