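import Pool.Agent.helper54.TS.Spec

/-!
Row CMC of project ts: composition of maps with greedy digits.
-/

set_option autoImplicit false

open Polynomial Finset

noncomputable section

namespace Pool.Agent.TS

open Pool.Agent.PSA (IsSalem Indep Fac)

/-- Row CMC. -/
theorem CMC : CMC_stmt := by
  intro K _ ι m m' f g hf hg
  obtain ⟨S, hS0, hS⟩ := hf.dig
  obtain ⟨S', hS0', hS'⟩ := hg.dig
  have hm := hf.mp
  have hm' := hg.mp
  refine ⟨?_, ?_, ?_, ?_⟩
  · rw [map_mul]; positivity
  · classical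
    refine ⟨Finset.image₂ (fun e e' => m' * e + e') S S', ?_, ?_⟩
    · intro x hx
      rw [Finset.mem_image₂] at hx
      obtain ⟨e, he, e', he', rfl⟩ := hx
      rw [map_add, map_mul]
      have h1 := hS0 e he
      have h2 := hS0' e' he'
      positivity
    · intro y hy0 hy1
      obtain ⟨e, he, h1⟩ := hS y hy0 hy1
      obtain ⟨hf0, hf1⟩ := hf.rng y hy0 hy1
      obtain ⟨e', he', h2⟩ := hS' (f y) hf0 hf1.le
      refine ⟨m' * e + e', Finset.mem_image₂_of_mem he he', ?_⟩
      show g (f y) = _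
      rw [h2, h1, map_add, map_mul, map_mul]
      ring
  · intro y hy0 hy1
    obtain ⟨hf0, hf1⟩ := hf.rng y hy0 hy1
    exact hg.rng (f y) hf0 hf1.le
  · intro y' y h0 h1 h2 h3
    change ι (m' * m) * (y - y') ≤ g (f y) at h3
    show g (f y') = g (f y) - ι (m' * m) * (y - y')
    have hy0 : 0 ≤ y := h0.trans h1
    obtain ⟨hf0, hf1⟩ := hf.rng y hy0 h2
    obtain ⟨hf0', hf1'⟩ := hf.rng y' h0 (h1.trans h2)
    obtain ⟨e', he', h4⟩ := hS' (f y) hf0 hf1.le
    have h5 : g (f y) ≤ ι m' * f y := by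
      have := hS0' e' he'
      linarith
    rw [map_mul] at h3 ⊢
    have h6 : ι m * (y - y') ≤ f y := by
      have h7 : ι m' * (ι m * (y - y')) ≤ ι m' * f y := by
        calc ι m' * (ι m * (y - y')) = ι m' * ι m * (y - y') := by ring
          _ ≤ g (f y) := h3
          _ ≤ ι m' * f y := h5
      exact le_of_mul_le_mul_left h7 hm'
    have h8 := hf.cell y' y h0 h1 h2 h6
    have h9 : f y' ≤ f y := by
      rw [h8]
      have : 0 ≤ ι m * (y - y') := mul_nonneg hm.le (sub_nonneg.2 h1)
      linarith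
    have h10 : f y - f y' = ι m * (y - y') := by rw [h8]; ring
    have h11 := hg.cell (f y') (f y) hf0' h9 hf1.le (by
      rw [h10]
      calc ι m' * (ι m * (y - y')) = ι m' * ι m * (y - y') := by ring
        _ ≤ g (f y) := h3)
    rw [h11, h10]
    ring

end Pool.Agent.TS
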