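import Pool.Agent.helper54.TS.Spec

/-!
Row CON of project ts: choice of the constants.
-/

set_option autoImplicit false

open Polynomial Finset

noncomputable section

namespace Pool.Agent.TS

open Pool.Agent.PSA (IsSalem Indep Fac)

/-- A value of a nonnegative function is bounded by the sum. -/
theorem CON_le_sum {K : Type} (S : Finset K) (f : K → ℝ) (hf : ∀ x, 0 ≤ f x) (e : K) (he : e ∈ S) :
    f e ≤ ∑ x ∈ S, f x :=
  Finset.single_le_sum (fun x _ => hf x) he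

/-- Row CON. -/
theorem CON (hETA : ETA_stmt) (hNNR : NNR_stmt) (hFAV : FAV_stmt) : CON_stmt := by
  intro K _ ι β σ k φ w hSF F dg S δ hB
  have hb1 : 1 < ι β := hSF.gt
  have hb0 : 0 < ι β := by linarith
  set z : ℝ := (ι β)⁻¹ with hz
  have hz0 : 0 < z := inv_pos.2 hb0
  have hz1 : z < 1 := inv_lt_one_of_one_lt₀ hb1
  have hδ0 : 0 < δ := hB.rb.dlt
  obtain ⟨n, hn⟩ := exists_pow_lt_of_lt_one (show (0 : ℝ) < δ / (1 + δ) by positivity) hz1
  obtain ⟨k0, W, hk0, hfav⟩ := hFAV k w hSF.ind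
  obtain ⟨nn0, -, -, -, -, -, nnm, -⟩ := hNNR K k φ
  have hd : ∀ x : K, ∃ d : ℕ, n + 1 ≤ d ∧ d ≤ n + 1 + W ∧
      k0 * nn φ x ≤ (∑ j, φ j x * (w j : ℂ) ^ (d + 1)).re := fun x => hfav (fun j => φ j x) (n + 1)
  choose dl hdl1 hdl2 hdl3 using hd
  obtain ⟨N, hN0, hN⟩ := hSF.den S
  set H : ℕ := n + 1 + W + 1 with hH
  set C₀ : ℝ := 1 + ∑ e ∈ S, nn φ e with hC₀
  have hC₀1 : 1 ≤ C₀ := by
    have : 0 ≤ ∑ e ∈ S, nn φ e := Finset.sum_nonneg fun x _ => nn0 x
    linarith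
  have hH0 : (0 : ℝ) < (H : ℝ) := by
    have : 0 < H := by omega
    exact_mod_cast this
  have hC₀0 : 0 < C₀ := by linarith
  set η : ℝ := k0 / (2 * H * C₀) with hη
  have hη0 : 0 < η := by positivity
  obtain ⟨τ, hτ1, hτ⟩ := hETA K ι β σ k φ w hSF η hη0
  set v : K := 1 + β⁻¹ ^ τ with hv
  have hιv : ι v = 1 + z ^ τ := by
    rw [hv, map_add, map_one, map_pow, map_inv₀]
  have hzτ0 : 0 < z ^ τ := pow_pos hz0 τ
  have hzτ1 : z ^ τ < 1 := pow_lt_one₀ hz0.le hz1 (by omega)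
  set C : ℝ := C₀ + ∑ e ∈ S, |σ e| + ∑ e ∈ S, |σ (v * e)| with hC
  have hs1 : 0 ≤ ∑ e ∈ S, |σ e| := Finset.sum_nonneg fun x _ => abs_nonneg _
  have hs2 : 0 ≤ ∑ e ∈ S, |σ (v * e)| := Finset.sum_nonneg fun x _ => abs_nonneg _
  have hC0 : 0 ≤ C := by linarith
  have hnn : ∀ e ∈ S, nn φ e ≤ C₀ := by
    intro e he
    have := CON_le_sum S (fun x => nn φ x) nn0 e he
    linarith
  have hbH : 0 < (ι β) ^ H := pow_pos hb0 H
  have h1z : 0 < 1 - z := by linarith
  refine ⟨τ, n + 1, dl, N, H, C, η * C₀, k0, 1 + ((ι β) ^ H + C) / (1 - z), hτ1, by omega, ?_, ?_, ?_, ?_⟩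
  · intro x
    refine ⟨hdl1 x, ?_⟩
    have := hdl2 x
    omega
  · have h1 : z ^ (n + 1 + 1) ≤ z ^ n := pow_le_pow_of_le_one hz0.le hz1.le (by omega)
    have h2 : z ^ (n + 1 + 1) ≤ δ / (1 + δ) := h1.trans hn.le
    have h3 : 0 < 1 + δ := by linarith
    exact (le_div_iff₀ h3).1 h2
  · refine ⟨?_, ?_, ?_, hN0, hN, ?_, ?_, ?_, ?_, ?_, hk0, ?_, ?_, ?_⟩
    · rw [hιv]; linarith
    · rw [hιv]; linarith
    · exact isIntegral_one.add (hSF.inv.pow τ)
    · intro e he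
      have h1 := nnm η v e hη0.le hτ
      exact h1.trans (mul_le_mul_of_nonneg_left (hnn e he) hη0.le)
    · positivity
    · intro e he
      have := hnn e he
      linarith
    · intro e he
      have := CON_le_sum S (fun x => |σ x|) (fun x => abs_nonneg _) e he
      change |σ e| ≤ _ at this
      linarith
    · intro e he
      have := CON_le_sum S (fun x => |σ (v * x)|) (fun x => abs_nonneg _) e he
      change |σ (v * e)| ≤ _ at this
      linarith
    · have : (H : ℝ) * (η * C₀) = k0 / 2 := by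
        rw [hη]
        field_simp
      exact this.le
    · have : 0 ≤ ((ι β) ^ H + C) / (1 - z) := by positivity
      linarith
    · have h1 : (1 + ((ι β) ^ H + C) / (1 - z)) * (1 - z) = (1 - z) + ((ι β) ^ H + C) := by
        field_simp
      have h2 : z * (ι β) ^ H ≤ (ι β) ^ H := by nlinarith
      have h3 : z * (1 + ((ι β) ^ H + C) / (1 - z) + (ι β) ^ H) + C ≤ 1 + ((ι β) ^ H + C) / (1 - z) := by
        nlinarith
      exact h3
  · exact hdl3

end Pool.Agent.TS
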