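import Mathlib
import Pool.Agent.helper23.TS.FRK

/-! # One far digit (module FAR of MP_332e42_an) -/

set_option autoImplicit false

namespace Pool.Agent.helper23.TS

open Pointwise

variable {L : Type*} [AddCommGroup L] {R : L →+ L}

/-- `x` goes to `0` in `m` moves with digits in `E` and at most one digit of the form `c - b`. -/
def KP (R : L →+ L) (E B : Set L) (c : L) (m : ℕ) (x : L) : Prop :=
  Mv R E m x 0 ∨ ∃ (j i : ℕ) (y b g : L), b ∈ B ∧ Mv R E j x y ∧ y + b = c + R g ∧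
    Mv R E i g 0 ∧ j + 1 + i = m

theorem KP.cons {E B : Set L} {c : L} {a m : ℕ} {x y : L} (h : Mv R E a x y)
    (h' : KP R E B c m y) : KP R E B c (a + m) x := by
  rcases h' with h' | ⟨j, i, z, b, g, hb, h1, h2, h3, h4⟩
  · exact Or.inl (h.trans h')
  · exact Or.inr ⟨a + j, i, z, b, g, hb, h.trans h1, h2, h3, by omega⟩

theorem KP.append {E B : Set L} {c : L} {a m : ℕ} {x h : L} (hx : KP R E B c a x)
    (hh : Mv R E m h 0) : KP R E B c (a + m) (x + R^[a] h) := by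
  rcases hx with hx | ⟨j, i, z, b, g, hb, h1, h2, h3, h4⟩
  · left
    have := hx.translate h
    rw [zero_add] at this
    exact this.trans hh
  · right
    refine ⟨j, i + m, z + R^[i + 1] h, b, g + R^[i] h, hb, ?_, ?_, ?_, by omega⟩
    · have h5 := h1.translate (R^[i + 1] h)
      rw [← Function.iterate_add_apply] at h5
      have : j + (i + 1) = a := by omega
      rwa [this] at h5
    · rw [map_add, ← Function.iterate_succ_apply' (⇑R) i h, ← add_assoc, ← h2]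
      abel
    · have h5 := h3.translate h
      rw [zero_add] at h5
      exact h5.trans hh

theorem mem_of_mv {H : AddSubgroup L} (hH : ∀ x ∈ H, R x ∈ H) (hH' : ∀ x, R x ∈ H → x ∈ H)
    {E : Set L} (hE : E ⊆ H) {n : ℕ} {x y : L} (h : Mv R E n x y) (hx : x ∈ H) : y ∈ H := by
  have h1 := h.sub_mem hH hE
  apply mem_of_iterate_mem hH' n
  have h2 := H.sub_mem hx h1
  rwa [sub_sub_cancel] at h2

/-- The setting of the far digit: `B ⊆ D'`, exactly one class is missing in `D'`. -/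
theorem full_sub {B D' : Set L} (hBD : B ⊆ D') (h0 : (0 : L) ∈ B)
    (hB2 : ∃ b ∈ B, b ≠ 0) (hs : Simple R D') (k : L)
    (hk1 : ∀ x, ¬ InCls R D' x → ∃ y, x = k + R y) : Full R (D' - B) := by
  intro x
  by_cases h1 : InCls R D' x
  · obtain ⟨δ, hδ, y, hy⟩ := h1
    exact ⟨δ - 0, Set.sub_mem_sub hδ h0, y, by rw [sub_zero, hy]⟩
  · obtain ⟨b, hb, hb0⟩ := hB2
    by_cases h2 : InCls R D' (x + b)
    · obtain ⟨δ, hδ, y, hy⟩ := h2
      refine ⟨δ - b, Set.sub_mem_sub hδ hb, y, ?_⟩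
      rw [sub_add_eq_add_sub, ← hy, add_sub_cancel_right]
    · exfalso
      obtain ⟨y, hy⟩ := hk1 x h1
      obtain ⟨y', hy'⟩ := hk1 _ h2
      apply hb0
      apply hs b (hBD hb) 0 (hBD h0) (y' - y)
      rw [map_sub, zero_add]
      have : b = (x + b) - x := by abel
      rw [this, hy', hy]
      abel

/-- program lemma -/
theorem program {E B : Set L} {c₁ : L} {Λ : AddSubgroup L} {K : Set L}
    (hF : Full R E) (h0 : (0 : L) ∈ E) (hEΛ : E ⊆ Λ) (hΛ : ∀ x ∈ Λ, R x ∈ Λ)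
    (hΛ' : ∀ x, R x ∈ Λ → x ∈ Λ)
    (hKs : ∀ x ∈ K, ∀ n y, Mv R E n x y → y ∈ K)
    (hKe : ∀ x, ∃ n₀, ∀ n, n₀ ≤ n → ∀ y, Mv R E n x y → y ∈ K)
    (P : L → Prop)
    (hT : ∀ x, (∃ n, Mv R E n x 0) ∨ ∃ n y, Mv R E n x y ∧ P y)
    (hstar : ∀ x ∈ K, x ∈ Λ → P x → ∃ b ∈ B, ∃ (m : ℕ) (g g' : L), Mv R E m g 0 ∧ Mv R E m g' 0 ∧
      x + b = c₁ + R (g' - g)) (k : ℕ) :
    ∀ l : List L, l.length = k → (∀ x ∈ l, x ∈ Λ) →
      ∃ (h : L) (M : ℕ), Mv R E M h 0 ∧ ∀ x ∈ l, KP R E B c₁ M (x + h) := by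
  induction k with
  | zero =>
    intro l hl _
    rw [List.length_eq_zero_iff] at hl
    subst hl
    exact ⟨0, 0, Mv.zero 0, by simp⟩
  | succ k ih =>
    intro l hlen hl
    match l, hlen, hl with
    | x₀ :: l, hlen, hl =>
      -- the first point
      obtain ⟨h₀, M₀, hh₀, hx₀⟩ : ∃ (h₀ : L) (M₀ : ℕ), Mv R E M₀ h₀ 0 ∧
          KP R E B c₁ M₀ (x₀ + h₀) := by
        obtain ⟨n₁, hn₁⟩ := hKe x₀
        obtain ⟨x₁, hx₁⟩ := hF.exists_mv n₁ x₀
        have hx₁K := hn₁ n₁ le_rfl _ hx₁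
        have hx₁Λ := mem_of_mv hΛ hΛ' hEΛ hx₁ (hl x₀ List.mem_cons_self)
        rcases hT x₁ with ⟨n, hn⟩ | ⟨n, x₂, hn, hP⟩
        · exact ⟨0, n₁ + n, Mv.zero_zero h0 _, Or.inl (by rw [add_zero]; exact hx₁.trans hn)⟩
        · have hx₂K := hKs x₁ hx₁K n x₂ hn
          have hx₂Λ := mem_of_mv hΛ hΛ' hEΛ hn hx₁Λ
          obtain ⟨b, hb, m, g, g', hg, hg', hxb⟩ := hstar x₂ hx₂K hx₂Λ hP
          refine ⟨R^[n₁ + n] (R g), n₁ + n + 1 + m, ?_, Or.inr ⟨n₁ + n, m, x₂ + R g, b, g', hb,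
            (hx₁.trans hn).translate (R g), ?_, hg', rfl⟩⟩
          · have h1 := (Mv.zero_zero (R := R) h0 (n₁ + n + 1)).translate g
            rw [zero_add, zero_add, Function.iterate_succ_apply] at h1
            exact h1.trans hg
          · rw [add_right_comm, hxb, map_sub]
            abel
      choose f hf using fun x : L => hF.exists_mv M₀ (x + h₀)
      have hh₀Λ : h₀ ∈ Λ := by
        have := hh₀.sub_mem hΛ hEΛ
        rwa [iterate_map_zero, sub_zero] at this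
      obtain ⟨h₁, M₁, hh₁, hall⟩ := ih (l.map f) (by simpa using hlen) (by
        intro y hy
        obtain ⟨x, hx, rfl⟩ := List.mem_map.1 hy
        exact mem_of_mv hΛ hΛ' hEΛ (hf x)
          (Λ.add_mem (hl x (List.mem_cons_of_mem _ hx)) hh₀Λ))
      refine ⟨h₀ + R^[M₀] h₁, M₀ + M₁, ?_, ?_⟩
      · have h1 := hh₀.translate h₁
        rw [zero_add] at h1
        exact h1.trans hh₁
      · intro x hx
        rw [← add_assoc]
        rcases List.mem_cons.1 hx with rfl | hx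
        · exact hx₀.append hh₁
        · exact KP.cons ((hf x).translate h₁) (hall (f x) (List.mem_map_of_mem hx))

variable [Module.Free ℤ L] [Module.Finite ℤ L]

/-- one far digit completes a digit set with exactly one missing class -/
theorem far_digit (hR : Function.Injective R) (hA : HasAttr R) {B D' : Set L}
    (hD' : D'.Finite) (hBD : B ⊆ D') (h0 : (0 : L) ∈ B) (hB2 : ∃ b ∈ B, b ≠ 0)
    (hs : Simple R D') (k : L) (hk : ¬ InCls R D' k)
    (hk1 : ∀ x, ¬ InCls R D' x → ∃ y, x = k + R y)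
    (hT : ∀ x, (∃ n, Mv R (D' - B) n x 0) ∨
      ∃ n y, Mv R (D' - B) n x y ∧ ∃ b ∈ B, ¬ InCls R D' (y + b)) :
    ∃ D : Set L, D.Finite ∧ D' ⊆ D ∧ Simple R D ∧ Full R D ∧ ∃ Λ : AddSubgroup L,
      D ⊆ Λ ∧ Λ.FiniteIndex ∧ (∀ x ∈ Λ, R x ∈ Λ) ∧ (∀ x, R x ∈ Λ → x ∈ Λ) ∧
      ∀ t ∈ Λ, ∃ n, Mv R (D - B) n t 0 := by
  classical
  set E := D' - B with hEdef
  have hBf : B.Finite := hD'.subset hBD
  have hE : E.Finite := hD'.sub hBf
  have h0E : (0 : L) ∈ E := by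
    have := Set.sub_mem_sub (hBD h0) h0
    rwa [sub_zero] at this
  have hF : Full R E := full_sub hBD h0 hB2 hs k hk1
  obtain ⟨hΛ', hΛ, hΛ3, hEΛ, hfi⟩ := frk hR hA hE h0E hF
  set Λ := Gam R (E - E) with hΛdef
  have hDΛ : D' ⊆ Λ := fun δ hδ => hEΛ (by simpa using Set.sub_mem_sub hδ h0)
  have hEA : E ⊆ E - E := fun e he => by simpa using Set.sub_mem_sub he h0E
  have hFA : Full R (E - E) := by
    intro x
    obtain ⟨e, he, y, hy⟩ := hF x
    exact ⟨e, hEA he, y, hy⟩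
  have hAΛ : E - E ⊆ (Λ : Set L) := by
    rintro _ ⟨e, he, e', he', rfl⟩
    exact Λ.sub_mem (hEΛ he) (hEΛ he')
  obtain ⟨c₀, hc₀, y₀, hy₀⟩ := hΛ3 k
  obtain ⟨K, hKf, hKs, hKe⟩ := hA E hE
  -- the finite set of first states after a far digit
  have hS₁ : {s : L | s ∈ Λ ∧ ∃ x ∈ K, ∃ b ∈ B, x + b = c₀ + R s}.Finite := by
    have h1 : ((fun s => c₀ + R s) ⁻¹' (K + B)).Finite := by
      apply (hKf.add hBf).preimage
      intro s _ s' _ h
      exact hR (add_left_cancel h)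
    refine h1.subset ?_
    rintro s ⟨-, x, hx, b, hb, h⟩
    exact Set.mem_preimage.2 (h ▸ Set.add_mem_add hx hb)
  obtain ⟨u₀, hu₀Λ, hu₀⟩ : ∃ u₀ ∈ Λ, ∀ s ∈ {s : L | s ∈ Λ ∧ ∃ x ∈ K, ∃ b ∈ B, x + b = c₀ + R s},
      ∃ m, Mv R (E - E) m (s - u₀) 0 := by
    obtain ⟨w, hw⟩ := merge_finset hA (hE.sub hE) hFA hS₁.toFinset.card hS₁.toFinset le_rfl (by
      intro x hx y hy
      rw [Set.Finite.mem_toFinset] at hx hy
      exact Λ.sub_mem hx.1 hy.1)
    by_cases hne : ∃ s, s ∈ hS₁.toFinset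
    · obtain ⟨s, hs'⟩ := hne
      refine ⟨w, ?_, fun s hs => hw s (by rwa [Set.Finite.mem_toFinset])⟩
      obtain ⟨m, hm⟩ := hw s hs'
      have h1 := hm.sub_mem hΛ hAΛ
      rw [iterate_map_zero, sub_zero] at h1
      rw [Set.Finite.mem_toFinset] at hs'
      have h2 := Λ.sub_mem hs'.1 h1
      rwa [sub_sub_cancel] at h2
    · refine ⟨0, Λ.zero_mem, fun s hs => ?_⟩
      exact absurd ⟨s, by rwa [Set.Finite.mem_toFinset]⟩ hne
  set c₁ := c₀ + R u₀ with hc₁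
  have hc₁Λ : c₁ ∈ Λ := Λ.add_mem hc₀ (hΛ _ hu₀Λ)
  -- classes
  have hcls : ∀ x, ¬ InCls R D' x → ∃ s, x = c₁ + R s := by
    intro x hx
    obtain ⟨y, hy⟩ := hk1 x hx
    refine ⟨y + y₀ - u₀, ?_⟩
    rw [hy, hy₀, hc₁, map_sub, map_add]
    abel
  have hcls' : ∀ s, ¬ InCls R D' (c₁ + R s) := by
    rintro s ⟨δ, hδ, y, hy⟩
    apply hk
    refine ⟨δ, hδ, y + y₀ - u₀ - s, ?_⟩
    rw [hy₀, map_sub, map_sub, map_add]
    have : c₀ = c₁ + R s - R s - R u₀ := by rw [hc₁]; abel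
    rw [this, hy]
    abel
  have hstar : ∀ x ∈ K, x ∈ Λ → (∃ b ∈ B, ¬ InCls R D' (x + b)) →
      ∃ b ∈ B, ∃ (m : ℕ) (g g' : L), Mv R E m g 0 ∧ Mv R E m g' 0 ∧
        x + b = c₁ + R (g' - g) := by
    rintro x hx hxΛ ⟨b, hb, hnb⟩
    obtain ⟨s', hs'⟩ := hcls _ hnb
    set s := s' + u₀ with hsdef
    have h1 : x + b = c₀ + R s := by
      rw [hs', hc₁, hsdef, map_add]
      abel
    have h2 : s ∈ Λ := by
      apply hΛ'
      have : R s = x + b - c₀ := by rw [h1]; abel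
      rw [this]
      exact Λ.sub_mem (Λ.add_mem hxΛ (hDΛ (hBD hb))) hc₀
    obtain ⟨m, hm⟩ := hu₀ s ⟨h2, x, hx, b, hb, h1⟩
    obtain ⟨g', g, hgg, h3, h4⟩ := hm.split 0
    rw [sub_zero] at h4
    refine ⟨b, hb, m, g, g', h4, h3, ?_⟩
    rw [hgg, h1, hc₁, map_sub]
    abel
  -- the program
  have hKΛ : (K ∩ Λ).Finite := hKf.inter_of_left _
  obtain ⟨h, M, hh, hprog⟩ := program (B := B) (c₁ := c₁) hF h0E hEΛ hΛ hΛ' hKs hKe
    (fun y => ∃ b ∈ B, ¬ InCls R D' (y + b)) hT hstar _ hKΛ.toFinset.toList rfl (by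
      intro x hx
      rw [Finset.mem_toList, Set.Finite.mem_toFinset] at hx
      exact hx.2)
  have hprog' : ∀ x ∈ K, x ∈ Λ → KP R E B c₁ M (x + h) := by
    intro x hx hxΛ
    apply hprog
    rw [Finset.mem_toList, Set.Finite.mem_toFinset]
    exact ⟨hx, hxΛ⟩
  have hhΛ : h ∈ Λ := by
    have := hh.sub_mem hΛ hEΛ
    rwa [iterate_map_zero, sub_zero] at this
  -- the waiting time
  have hS₂ : {s : L | ∃ x ∈ K, ∃ b ∈ B, x + b = c₁ + R s}.Finite := by
    have h1 : ((fun s => c₁ + R s) ⁻¹' (K + B)).Finite := by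
      apply (hKf.add hBf).preimage
      intro s _ s' _ h
      exact hR (add_left_cancel h)
    refine h1.subset ?_
    rintro s ⟨x, hx, b, hb, h⟩
    exact Set.mem_preimage.2 (h ▸ Set.add_mem_add hx hb)
  choose n₀ hn₀ using hKe
  set N := max M (hS₂.toFinset.sup n₀) with hN
  set c := c₁ - R (R^[N] h) with hc
  have hcΛ : c ∈ Λ := Λ.sub_mem hc₁Λ (hΛ _ (iterate_mem hΛ N hhΛ))
  have hc' : ∀ y, ¬ InCls R D' (c + R y) := by
    intro y hy
    apply hcls' (y - R^[N] h)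
    have : c₁ + R (y - R^[N] h) = c + R y := by
      rw [hc, map_sub]
      abel
    rwa [this]
  have hED : E ⊆ insert c D' - B := by
    rintro _ ⟨δ, hδ, b, hb, rfl⟩
    exact Set.sub_mem_sub (Set.mem_insert_of_mem c hδ) hb
  refine ⟨insert c D', hD'.insert c, Set.subset_insert c D', ?_, ?_, Λ, ?_, hfi, hΛ, hΛ', ?_⟩
  · -- simple
    intro b hb b' hb' y hy
    rcases Set.mem_insert_iff.1 hb with rfl | hb1
    · rcases Set.mem_insert_iff.1 hb' with rfl | hb1'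
      · rfl
      · exfalso
        apply hc' 0
        rw [map_zero, add_zero]
        exact ⟨b', hb1', y, hy⟩
    · rcases Set.mem_insert_iff.1 hb' with rfl | hb1'
      · exfalso
        apply hc' y
        rw [← hy]
        exact ⟨b, hb1, 0, by simp⟩
      · exact hs b hb1 b' hb1' y hy
  · -- full
    intro x
    by_cases hx : InCls R D' x
    · obtain ⟨δ, hδ, y, hy⟩ := hx
      exact ⟨δ, Set.mem_insert_of_mem c hδ, y, hy⟩
    · obtain ⟨s, hs'⟩ := hcls x hx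
      refine ⟨c, Set.mem_insert c D', s + R^[N] h, ?_⟩
      rw [hs', hc, map_add]
      abel
  · intro x hx
    rcases Set.mem_insert_iff.1 hx with rfl | hx
    · exact hcΛ
    · exact hDΛ hx
  · intro t ht
    obtain ⟨x₁, hx₁⟩ := hF.exists_mv (n₀ t) t
    have hx₁K := hn₀ t _ le_rfl _ hx₁
    have hx₁Λ := mem_of_mv hΛ hΛ' hEΛ hx₁ ht
    rcases hT x₁ with ⟨n, hn⟩ | ⟨n, x₂, hn, b, hb, hnb⟩
    · exact ⟨_, (hx₁.trans hn).mono hED⟩
    · have hx₂K := hKs x₁ hx₁K n x₂ hn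
      have hx₂Λ := mem_of_mv hΛ hΛ' hEΛ hn hx₁Λ
      obtain ⟨s, hs'⟩ := hcls _ hnb
      have hsΛ : s ∈ Λ := by
        apply hΛ'
        have : R s = x₂ + b - c₁ := by rw [hs']; abel
        rw [this]
        exact Λ.sub_mem (Λ.add_mem hx₂Λ (hDΛ (hBD hb))) hc₁Λ
      obtain ⟨y, hy⟩ := hF.exists_mv N s
      have hyK : y ∈ K := by
        refine hn₀ s N ?_ y hy
        refine le_trans (Finset.le_sup (f := n₀) ?_) (le_max_right _ _)
        rw [Set.Finite.mem_toFinset]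
        exact ⟨x₂, hx₂K, b, hb, hs'⟩
      have hyΛ := mem_of_mv hΛ hΛ' hEΛ hy hsΛ
      have hstep : Mv R (insert c D' - B) 1 x₂ (s + R^[N] h) := by
        refine Mv.one (Set.sub_mem_sub (Set.mem_insert c D') hb) ?_
        have : x₂ = x₂ + b - b := by abel
        rw [this, hs', hc, map_add]
        abel
      have h1 : Mv R (insert c D' - B) (n₀ t + n + 1 + N) t (y + h) :=
        (((hx₁.trans hn).mono hED).trans hstep).trans ((hy.translate h).mono hED)
      rcases hprog' y hyK hyΛ with h2 | ⟨j, i, z, b', g, hb', h2, h3, h4, h5⟩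
      · exact ⟨_, h1.trans (h2.mono hED)⟩
      · have hstep' : Mv R (insert c D' - B) 1 z (g + R^[N] h) := by
          refine Mv.one (Set.sub_mem_sub (Set.mem_insert c D') hb') ?_
          have : z = z + b' - b' := by abel
          rw [this, h3, hc, map_add]
          abel
        have hiN : i ≤ N := by
          have := le_max_left M (hS₂.toFinset.sup n₀)
          omega
        have h6 : Mv R E N (g + R^[N] h) h := by
          have := (Mv.pad h0E hiN h4).translate h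
          rwa [zero_add] at this
        exact ⟨_, ((h1.trans (h2.mono hED)).trans hstep').trans ((h6.trans hh).mono hED)⟩

end Pool.Agent.helper23.TS
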