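import Mathlib
import Pool.Agent.helper23.TS.FAR

/-! # Tower over the missing classes (module TOW of MP_332e42_an) -/

set_option autoImplicit false

namespace Pool.Agent.helper23.TS

open Pointwise

variable {L : Type*} [AddCommGroup L] {R : L →+ L}

/-- every point reaches `0` or can hit a missing class -/
def TCond (R : L →+ L) (B D : Set L) : Prop :=
  ∀ x, (∃ n, Mv R (D - B) n x 0) ∨
    ∃ n y, Mv R (D - B) n x y ∧ ∃ b ∈ B, ¬ InCls R D (y + b)

/-- `x` can hit a missing class different from the class of `k` -/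
def Good (R : L →+ L) (B D : Set L) (k x : L) : Prop :=
  ∃ b ∈ B, ¬ InCls R D (x + b) ∧ ¬ ∃ y, x + b = k + R y

theorem InCls.add {D : Set L} {x : L} (h : InCls R D x) (z : L) : InCls R D (x + R z) := by
  obtain ⟨b, hb, y, rfl⟩ := h
  exact ⟨b, hb, y + z, by rw [map_add, add_assoc]⟩

theorem Good.add {B D : Set L} {k x : L} (h : Good R B D k x) (z : L) :
    Good R B D k (x + R z) := by
  obtain ⟨b, hb, h1, h2⟩ := h
  refine ⟨b, hb, fun h3 => h1 ?_, fun ⟨y, hy⟩ => h2 ⟨y - z, ?_⟩⟩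
  · have h4 := h3.add (-z)
    have : x + R z + b + R (-z) = x + b := by
      rw [map_neg]
      abel
    rwa [this] at h4
  · have : x + b = x + R z + b - R z := by abel
    rw [this, hy, map_sub]
    abel

theorem safe_move {B D : Set L} (h0 : (0 : L) ∈ B) (hB2 : ∃ b ∈ B, b ≠ 0) (hBD : B ⊆ D)
    (hs : Simple R D) (k x : L) :
    Good R B D k x ∨ ∃ e ∈ D - B, ∃ y, x = e + R y := by
  obtain ⟨b, hb, hb0⟩ := hB2
  by_cases h1 : InCls R D x
  · right
    obtain ⟨δ, hδ, y, hy⟩ := h1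
    exact ⟨δ - 0, Set.sub_mem_sub hδ h0, y, by rw [sub_zero, hy]⟩
  · by_cases h2 : ∃ y, x = k + R y
    · obtain ⟨y, hy⟩ := h2
      by_cases h3 : InCls R D (x + b)
      · right
        obtain ⟨δ, hδ, z, hz⟩ := h3
        refine ⟨δ - b, Set.sub_mem_sub hδ hb, z, ?_⟩
        rw [sub_add_eq_add_sub, ← hz, add_sub_cancel_right]
      · left
        refine ⟨b, hb, h3, fun ⟨z, hz⟩ => hb0 ?_⟩
        apply hs b (hBD hb) 0 (hBD h0) (z - y)
        have : b = (x + b) - x := by abel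
        rw [this, hz, map_sub, hy]
        abel
    · left
      exact ⟨0, h0, by rwa [add_zero], by rwa [add_zero]⟩

theorem safe_moves {B D : Set L} (h0 : (0 : L) ∈ B) (hB2 : ∃ b ∈ B, b ≠ 0) (hBD : B ⊆ D)
    (hs : Simple R D) (k : L) (N : ℕ) : ∀ x,
    (∃ m, m < N ∧ ∃ y, Mv R (D - B) m x y ∧ Good R B D k y) ∨ ∃ y, Mv R (D - B) N x y := by
  induction N with
  | zero => exact fun x => Or.inr ⟨x, Mv.zero x⟩
  | succ N ih =>
    intro x
    rcases safe_move h0 hB2 hBD hs k x with h | ⟨e, he, y, hy⟩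
    · exact Or.inl ⟨0, Nat.succ_pos N, x, Mv.zero x, h⟩
    · rcases ih y with ⟨m, hm, z, hz, hg⟩ | ⟨z, hz⟩
      · exact Or.inl ⟨m + 1, by omega, z, Mv.succ he hy hz, hg⟩
      · exact Or.inr ⟨z, Mv.succ he hy hz⟩

/-- a translation after which every point of a finite list can hit another missing class -/
theorem tower_program {B D : Set L} (h0 : (0 : L) ∈ B) (hB2 : ∃ b ∈ B, b ≠ 0) (hBD : B ⊆ D)
    (hs : Simple R D) (k₁ k₂ : L) (hk₂ : ¬ InCls R D k₂) (hk : ∀ y, k₂ ≠ k₁ + R y) (k : ℕ) :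
    ∀ l : List L, l.length = k →
      ∃ w, ∀ x ∈ l, ∃ n y, Mv R (D - B) n (x - w) y ∧ Good R B D k₁ y := by
  induction k with
  | zero =>
    intro l hl
    rw [List.length_eq_zero_iff] at hl
    subst hl
    exact ⟨0, by simp⟩
  | succ k ih =>
    intro l hlen
    match l, hlen with
    | x₀ :: l, hlen =>
      have hgood : Good R B D k₁ k₂ :=
        ⟨0, h0, by rwa [add_zero], by rw [add_zero]; exact fun ⟨y, hy⟩ => hk y hy⟩
      have hch : ∀ x : L, ∃ y, Good R B D k₁ (x - (x₀ - k₂)) ∨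
          ∃ e ∈ D - B, x - (x₀ - k₂) = e + R y := by
        intro x
        rcases safe_move h0 hB2 hBD hs k₁ (x - (x₀ - k₂)) with h | ⟨e, he, y, hy⟩
        · exact ⟨0, Or.inl h⟩
        · exact ⟨y, Or.inr ⟨e, he, hy⟩⟩
      choose f hf using hch
      obtain ⟨w₁, hw₁⟩ := ih (l.map f) (by simpa using hlen)
      refine ⟨(x₀ - k₂) + R w₁, fun x hx => ?_⟩
      rcases List.mem_cons.1 hx with rfl | hx
      · refine ⟨0, _, Mv.zero _, ?_⟩
        have h1 := hgood.add (-w₁)
        have : x - (x - k₂ + R w₁) = k₂ + R (-w₁) := by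
          rw [map_neg]
          abel
        rwa [this]
      · rcases hf x with h | ⟨e, he, hy⟩
        · refine ⟨0, _, Mv.zero _, ?_⟩
          have h1 := h.add (-w₁)
          have : x - (x₀ - k₂ + R w₁) = x - (x₀ - k₂) + R (-w₁) := by
            rw [map_neg]
            abel
          rwa [this]
        · obtain ⟨n, z, hn, hz⟩ := hw₁ (f x) (List.mem_map_of_mem hx)
          refine ⟨n + 1, z, Mv.succ he ?_ hn, hz⟩
          rw [map_sub, ← add_sub_assoc, ← hy]
          abel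

theorem inCls_insert {D : Set L} {c k : L} {y₀ : L} (hc : c = k + R y₀) {x : L}
    (h : InCls R (insert c D) x) : InCls R D x ∨ ∃ y, x = k + R y := by
  obtain ⟨b, hb, y, hy⟩ := h
  rcases Set.mem_insert_iff.1 hb with rfl | hb
  · right
    exact ⟨y₀ + y, by rw [hy, hc, map_add, add_assoc]⟩
  · exact Or.inl ⟨b, hb, y, hy⟩

/-- one step of the tower -/
theorem tower_step (hR : Function.Injective R) (hA : HasAttr R) {B D : Set L} (hD : D.Finite)
    (hBD : B ⊆ D) (h0 : (0 : L) ∈ B) (hB2 : ∃ b ∈ B, b ≠ 0) (hs : Simple R D) (k₁ k₂ : L)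
    (hk₂ : ¬ InCls R D k₂) (hk : ∀ y, k₂ ≠ k₁ + R y)
    (hT : TCond R B D) : ∃ c y₀, c = k₁ + R y₀ ∧ TCond R B (insert c D) := by
  classical
  have hBf : B.Finite := hD.subset hBD
  obtain ⟨K, hKf, hKs, hKe⟩ := hA (D - B) (hD.sub hBf)
  obtain ⟨w, hw⟩ := tower_program h0 hB2 hBD hs k₁ k₂ hk₂ hk _ hKf.toFinset.toList rfl
  have hw' : ∀ x ∈ K, ∃ n y, Mv R (D - B) n (x - w) y ∧ Good R B D k₁ y := by
    intro x hx
    apply hw
    rwa [Finset.mem_toList, Set.Finite.mem_toFinset]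
  have hS₂ : {s : L | ∃ x ∈ K, ∃ b ∈ B, x + b = k₁ + R s}.Finite := by
    have h1 : ((fun s => k₁ + R s) ⁻¹' (K + B)).Finite := by
      apply (hKf.add hBf).preimage
      intro s _ s' _ h
      exact hR (add_left_cancel h)
    refine h1.subset ?_
    rintro s ⟨x, hx, b, hb, h⟩
    exact Set.mem_preimage.2 (h ▸ Set.add_mem_add hx hb)
  choose n₀ hn₀ using hKe
  set N := hS₂.toFinset.sup n₀ with hN
  set c := k₁ + R (R^[N] w) with hc
  refine ⟨c, R^[N] w, rfl, ?_⟩
  have hED : D - B ⊆ insert c D - B := by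
    rintro _ ⟨δ, hδ, b, hb, rfl⟩
    exact Set.sub_mem_sub (Set.mem_insert_of_mem c hδ) hb
  -- success
  have hsucc : ∀ {x y : L} {n : ℕ}, Mv R (insert c D - B) n x y → Good R B D k₁ y →
      ∃ n y, Mv R (insert c D - B) n x y ∧ ∃ b ∈ B, ¬ InCls R (insert c D) (y + b) := by
    rintro x y n h ⟨b, hb, h1, h2⟩
    refine ⟨n, y, h, b, hb, fun h3 => ?_⟩
    rcases inCls_insert hc h3 with h4 | h4
    · exact h1 h4
    · exact h2 h4
  intro x
  rcases safe_moves h0 hB2 hBD hs k₁ (n₀ x) x with ⟨m, -, y, hy, hg⟩ | ⟨y, hy⟩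
  · exact Or.inr (hsucc (hy.mono hED) hg)
  · have hyK := hn₀ x _ le_rfl _ hy
    rcases hT y with ⟨n, hn⟩ | ⟨n, y', hn, b, hb, hnb⟩
    · exact Or.inl ⟨_, (hy.trans hn).mono hED⟩
    · have hy'K := hKs y hyK n y' hn
      by_cases h2 : ∃ s, y' + b = k₁ + R s
      · obtain ⟨s, hs'⟩ := h2
        have hstep : Mv R (insert c D - B) 1 y' (s - R^[N] w) := by
          refine Mv.one (Set.sub_mem_sub (Set.mem_insert c D) hb) ?_
          have : y' = y' + b - b := by abel
          rw [this, hs', hc, map_sub]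
          abel
        have h1 := ((hy.trans hn).mono hED).trans hstep
        rcases safe_moves h0 hB2 hBD hs k₁ N s with ⟨m, hm, z, hz, hg⟩ | ⟨z, hz⟩
        · right
          obtain ⟨j, hj⟩ := Nat.exists_eq_add_of_lt hm
          have h3 := hz.translate (-(R (R^[j] w)))
          have e1 : s + R^[m] (-(R (R^[j] w))) = s - R^[N] w := by
            rw [iterate_map_neg, ← Function.iterate_succ_apply' (⇑R) j w,
              ← Function.iterate_add_apply, ← sub_eq_add_neg, hj, add_assoc]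
          rw [e1] at h3
          have h4 := hg.add (-(R^[j] w))
          rw [map_neg] at h4
          exact hsucc (h1.trans (h3.mono hED)) h4
        · right
          have hzK : z ∈ K := by
            refine hn₀ s N ?_ z hz
            refine Finset.le_sup (f := n₀) ?_
            rw [Set.Finite.mem_toFinset]
            exact ⟨y', hy'K, b, hb, hs'⟩
          obtain ⟨n', z', hn', hg⟩ := hw' z hzK
          have h3 := hz.translate (-w)
          rw [iterate_map_neg, ← sub_eq_add_neg, ← sub_eq_add_neg] at h3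
          exact hsucc (h1.trans ((h3.trans hn').mono hED)) hg
      · exact Or.inr (hsucc ((hy.trans hn).mono hED) ⟨b, hb, hnb, h2⟩)

/-- the tower: all missing classes but one can be filled -/
theorem tower (hR : Function.Injective R) (hA : HasAttr R) {B : Set L}
    (h0 : (0 : L) ∈ B) (hB2 : ∃ b ∈ B, b ≠ 0) (n : ℕ) :
    ∀ D E : Set L, E.Finite → D ⊆ E → Simple R E → Full R E → (E \ D).ncard = n + 1 → B ⊆ D →
      TCond R B D → ∃ D', D'.Finite ∧ B ⊆ D' ∧ Simple R D' ∧ TCond R B D' ∧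
        ∃ k, ¬ InCls R D' k ∧ ∀ x, ¬ InCls R D' x → ∃ y, x = k + R y := by
  induction n with
  | zero =>
    intro D E hE hDE hs hF hcard hBD hT
    rw [zero_add, Set.ncard_eq_one] at hcard
    obtain ⟨k, hk⟩ := hcard
    have hkE : k ∈ E ∧ k ∉ D := by
      have : k ∈ E \ D := by rw [hk]; exact Set.mem_singleton k
      exact this
    have hsD : Simple R D := fun b hb b' hb' => hs b (hDE hb) b' (hDE hb')
    refine ⟨D, hE.subset hDE, hBD, hsD, hT, k, ?_, ?_⟩
    · rintro ⟨δ, hδ, y, hy⟩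
      have := hs k hkE.1 δ (hDE hδ) y hy
      rw [this] at hkE
      exact hkE.2 hδ
    · intro x hx
      obtain ⟨e, he, y, hy⟩ := hF x
      have : e ∈ E \ D := ⟨he, fun heD => hx ⟨e, heD, y, hy⟩⟩
      rw [hk, Set.mem_singleton_iff] at this
      exact ⟨y, by rw [hy, this]⟩
  | succ n ih =>
    intro D E hE hDE hs hF hcard hBD hT
    have hfin : (E \ D).Finite := hE.subset Set.sdiff_subset
    obtain ⟨k₁, hk₁, k₂, hk₂, hne⟩ : ∃ a ∈ E \ D, ∃ b ∈ E \ D, a ≠ b :=
      (Set.one_lt_ncard hfin).1 (by omega)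
    have hsD : Simple R D := fun b hb b' hb' => hs b (hDE hb) b' (hDE hb')
    have hcl : ∀ k ∈ E \ D, ¬ InCls R D k := by
      rintro k ⟨hkE, hkD⟩ ⟨δ, hδ, y, hy⟩
      have := hs k hkE δ (hDE hδ) y hy
      rw [this] at hkD
      exact hkD hδ
    obtain ⟨c, y₀, hc, hTc⟩ := tower_step hR hA (hE.subset hDE) hBD h0 hB2 hsD k₁ k₂
      (hcl k₂ hk₂) (fun y hy => hne (hs k₂ hk₂.1 k₁ hk₁.1 y hy).symm) hT
    -- the new complete system
    have hk₁E : k₁ ∈ E := hk₁.1
    have hk₁D : k₁ ∉ D := hk₁.2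
    have hcE : ∀ e ∈ E \ {k₁}, c ≠ e := by
      rintro e ⟨he, hek⟩ rfl
      apply hek
      rw [Set.mem_singleton_iff]
      exact hs c he k₁ hk₁E y₀ hc
    have hsE' : Simple R (insert c (E \ {k₁})) := by
      intro b hb b' hb' y hy
      rcases Set.mem_insert_iff.1 hb with rfl | hb1
      · rcases Set.mem_insert_iff.1 hb' with rfl | hb1'
        · rfl
        · exfalso
          have h1 : k₁ = b' + R (y - y₀) := by
            rw [map_sub, ← add_sub_assoc, ← hy, hc]
            abel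
          have := hs k₁ hk₁E b' hb1'.1 _ h1
          exact hb1'.2 (by rw [Set.mem_singleton_iff, this])
      · rcases Set.mem_insert_iff.1 hb' with rfl | hb1'
        · exfalso
          have h1 : b = k₁ + R (y₀ + y) := by
            rw [map_add, hy, hc]
            abel
          have := hs b hb1.1 k₁ hk₁E _ h1
          exact hb1.2 (by rw [Set.mem_singleton_iff, this])
        · exact hs b hb1.1 b' hb1'.1 y hy
    have hFE' : Full R (insert c (E \ {k₁})) := by
      intro x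
      obtain ⟨e, he, y, hy⟩ := hF x
      by_cases hek : e = k₁
      · refine ⟨c, Set.mem_insert _ _, y - y₀, ?_⟩
        rw [map_sub, hc, hy, hek]
        abel
      · exact ⟨e, Set.mem_insert_of_mem _ ⟨he, hek⟩, y, hy⟩
    have hDE' : insert c D ⊆ insert c (E \ {k₁}) := by
      apply Set.insert_subset_insert
      intro δ hδ
      refine ⟨hDE hδ, fun h => hk₁D ?_⟩
      rw [Set.mem_singleton_iff] at h
      rwa [← h]
    have hdiff : insert c (E \ {k₁}) \ insert c D = (E \ D) \ {k₁} := by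
      ext z
      simp only [Set.mem_sdiff, Set.mem_insert_iff, Set.mem_singleton_iff, not_or]
      constructor
      · rintro ⟨h1 | ⟨h1, h2⟩, h3, h4⟩
        · exact absurd h1 h3
        · exact ⟨⟨h1, h4⟩, h2⟩
      · rintro ⟨⟨h1, h4⟩, h2⟩
        exact ⟨Or.inr ⟨h1, h2⟩, fun h => hcE z ⟨h1, h2⟩ h.symm, h4⟩
    exact ih (insert c D) (insert c (E \ {k₁})) ((hE.subset Set.sdiff_subset).insert c) hDE' hsE'
      hFE' (by
        rw [hdiff, Set.ncard_sdiff_singleton_of_mem hk₁]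
        omega) (hBD.trans (Set.subset_insert c D)) hTc

variable [Module.Free ℤ L] [Module.Finite ℤ L]

/-- combinatorial theorem: a digit set with the property `TCond` which is not complete and has at
least two elements extends to a complete one -/
theorem combin (hR : Function.Injective R) (hA : HasAttr R) {B : Set L} (hB : B.Finite)
    (h0 : (0 : L) ∈ B) (hB2 : ∃ b ∈ B, b ≠ 0) (hs : Simple R B) (hinc : ∃ k, ¬ InCls R B k)
    (hT : TCond R B B) :
    ∃ D : Set L, D.Finite ∧ B ⊆ D ∧ Simple R D ∧ Full R D ∧ ∃ Λ : AddSubgroup L,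
      D ⊆ Λ ∧ Λ.FiniteIndex ∧ (∀ x ∈ Λ, R x ∈ Λ) ∧ (∀ x, R x ∈ Λ → x ∈ Λ) ∧
      ∀ t ∈ Λ, ∃ n, Mv R (D - B) n t 0 := by
  obtain ⟨E, hE, hBE, hsE, hF⟩ := exists_full R hR B hB hs
  have hpos : 0 < (E \ B).ncard := by
    rw [Set.ncard_pos (hE.subset Set.sdiff_subset)]
    obtain ⟨k, hk⟩ := hinc
    obtain ⟨e, he, y, hy⟩ := hF k
    exact ⟨e, he, fun heB => hk ⟨e, heB, y, hy⟩⟩
  obtain ⟨n, hn⟩ := Nat.exists_eq_succ_of_ne_zero hpos.ne'
  obtain ⟨D', hD', hBD', hsD', hTD', k, hk, hk1⟩ := tower hR hA h0 hB2 n B E hE hBE hsE hF hn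
    Set.Subset.rfl hT
  obtain ⟨D, hD, hDD, hsD, hFD, Λ, h1, h2, h3, h4, h5⟩ := far_digit hR hA hD' hBD' h0 hB2 hsD' k
    hk hk1 hTD'
  exact ⟨D, hD, hBD'.trans hDD, hsD, hFD, Λ, h1, h2, h3, h4, h5⟩

end Pool.Agent.helper23.TS
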