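import Mathlib
import Pool.Agent.helper23.TS.TOW

/-! # Trapped subgroup, quotient and lifting of digits (module TRP of MP_332e42_an) -/

set_option autoImplicit false

namespace Pool.Agent.helper23.TS

open Pointwise

variable {L : Type*} [AddCommGroup L] {R : L →+ L} {B : Set L}

/-- membership in the trapped set -/
def IsTrap (R : L →+ L) (B : Set L) (x : L) : Prop :=
  ∀ n y, Mv R (B - B) n x y → ∀ b ∈ B, InCls R B (y + b)

theorem IsTrap.mv {n : ℕ} {x y : L} (h : IsTrap R B x) (hm : Mv R (B - B) n x y) :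
    IsTrap R B y := fun _ z hz b hb => h _ z (hm.trans hz) b hb

theorem IsTrap.step {x b : L} (h : IsTrap R B x) (hb : b ∈ B) :
    ∃ b' ∈ B, ∃ y, IsTrap R B y ∧ x + b = b' + R y := by
  obtain ⟨b', hb', y, hy⟩ := h 0 x (Mv.zero x) b hb
  refine ⟨b', hb', y, h.mv (Mv.one (Set.sub_mem_sub hb' hb) ?_), hy⟩
  rw [sub_add_eq_add_sub, ← hy, add_sub_cancel_right]

theorem isTrap_of_closed (hR : Function.Injective R) (hs : Simple R B) {P : L → Prop}
    (hP : ∀ x, P x → ∀ b ∈ B, ∃ b' ∈ B, ∃ y, P y ∧ x + b = b' + R y) {x : L} (hx : P x) :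
    IsTrap R B x := by
  have key : ∀ n x y, P x → Mv R (B - B) n x y → P y := by
    intro n x y hx h
    induction h with
    | zero x => exact hx
    | @succ n x y z e he hxy _ ih =>
      apply ih
      obtain ⟨b₁, hb₁, b₂, hb₂, rfl⟩ := Set.mem_sub.1 he
      obtain ⟨b', hb', y', hy', h1⟩ := hP x hx b₂ hb₂
      have h2 : b₁ + R y = b' + R y' := by
        rw [← h1, hxy]
        abel
      have h3 : b₁ = b' := by
        apply hs b₁ hb₁ b' hb' (y' - y)
        rw [map_sub, ← add_sub_assoc, ← h2]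
        abel
      rw [h3] at h2
      have h4 := hR (add_left_cancel h2)
      rwa [h4]
  intro n y hy b hb
  obtain ⟨b', hb', z, -, h1⟩ := hP y (key n x y hx hy) b hb
  exact ⟨b', hb', z, h1⟩

/-- the trapped subgroup -/
def Trap (R : L →+ L) (B : Set L) (hR : Function.Injective R) (hs : Simple R B)
    (hB : B.Finite) : AddSubgroup L where
  carrier := {x | IsTrap R B x}
  zero_mem' := by
    apply isTrap_of_closed hR hs (P := fun x => x = 0) _ rfl
    rintro x rfl b hb
    exact ⟨b, hb, 0, rfl, by simp⟩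
  add_mem' := by
    intro x y hx hy
    apply isTrap_of_closed hR hs (P := fun z => ∃ x y, IsTrap R B x ∧ IsTrap R B y ∧ z = x + y) _
      ⟨x, y, hx, hy, rfl⟩
    rintro z ⟨x, y, hx, hy, rfl⟩ b hb
    obtain ⟨b', hb', y', hy', h1⟩ := hy.step hb
    obtain ⟨b'', hb'', x', hx', h2⟩ := hx.step hb'
    refine ⟨b'', hb'', x' + y', ⟨x', y', hx', hy', rfl⟩, ?_⟩
    rw [add_assoc, h1, ← add_assoc, h2, map_add, add_assoc]
  neg_mem' := by
    intro x hx
    apply isTrap_of_closed hR hs (P := fun z => IsTrap R B (-z)) _ (by simpa using hx)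
    intro z hz b hb
    -- the permutation of `B`
    have hch : ∀ c : B, ∃ c' : B, ∃ y, IsTrap R B y ∧ -z + c = c' + R y := by
      rintro ⟨c, hc⟩
      obtain ⟨c', hc', y, hy, h1⟩ := hz.step hc
      exact ⟨⟨c', hc'⟩, y, hy, h1⟩
    choose f g hg hfg using hch
    have : Finite B := hB
    have hinj : Function.Injective f := by
      intro c c' h
      have h1 := hfg c
      have h2 := hfg c'
      rw [h] at h1
      apply Subtype.ext
      apply hs _ c.2 _ c'.2 (g c - g c')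
      have h3 : (c : L) = (-z + c) + z := by abel
      rw [h3, h1, map_sub]
      have h4 : (c' : L) = (-z + c') + z := by abel
      rw [h4, h2]
      abel
    obtain ⟨c, hc⟩ := (Finite.injective_iff_surjective.1 hinj) ⟨b, hb⟩
    have h1 := hfg c
    rw [hc] at h1
    refine ⟨c, c.2, -(g c), by simpa using hg c, ?_⟩
    rw [map_neg]
    have h3 : (c : L) = (-z + c) + z := by abel
    rw [h3, h1]
    simp only
    abel

theorem mem_Trap {hR : Function.Injective R} {hs : Simple R B} {hB : B.Finite} {x : L} :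
    x ∈ Trap R B hR hs hB ↔ IsTrap R B x := Iff.rfl

variable [Module.Free ℤ L] [Module.Finite ℤ L]

theorem trap_facts (hR : Function.Injective R) (hs : Simple R B) (hB : B.Finite)
    (h0 : (0 : L) ∈ B) :
    (∀ x, R x ∈ Trap R B hR hs hB → x ∈ Trap R B hR hs hB) ∧
    (∀ x ∈ Trap R B hR hs hB, R x ∈ Trap R B hR hs hB) ∧
    (∀ (m : ℕ) (x : L), 0 < m → m • x ∈ Trap R B hR hs hB → x ∈ Trap R B hR hs hB) ∧
    (∀ w ∈ Trap R B hR hs hB, ∀ b ∈ B, ∃ b' ∈ B, ∃ w' ∈ Trap R B hR hs hB,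
      w + b = b' + R w') ∧
    (∀ b ∈ B, ∀ b' ∈ B, ∀ w ∈ Trap R B hR hs hB, ∀ y, b - b' = w + R y →
      b - b' ∈ Trap R B hR hs hB) := by
  set W := Trap R B hR hs hB with hW
  have h00 : (0 : L) ∈ B - B := by
    have := Set.sub_mem_sub h0 h0
    rwa [sub_zero] at this
  have h1 : ∀ x, R x ∈ W → x ∈ W := fun x hx => IsTrap.mv hx (Mv.one h00 (by simp))
  have h4 : ∀ w ∈ W, ∀ b ∈ B, ∃ b' ∈ B, ∃ w' ∈ W, w + b = b' + R w' :=
    fun w hw b hb => IsTrap.step hw hb
  set H := satGroup W with hH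
  have hRH : ∀ x ∈ H, R x ∈ H := fun x hx => sat_R R hR W h1 x hx
  obtain ⟨h2, h2'⟩ := idx_arg R hR H W (le_satGroup W) hRH (fun x hx => hx) h1
  have hHW : ∀ x ∈ H, x ∈ W := by
    intro x hx
    apply isTrap_of_closed hR hs (P := fun x => x ∈ H) _ hx
    intro x hx b hb
    obtain ⟨w, hw, u, hu, rfl⟩ := h2' x hx
    obtain ⟨b', hb', w', hw', h5⟩ := h4 w hw b hb
    refine ⟨b', hb', w' + u, H.add_mem (le_satGroup W hw') hu, ?_⟩
    rw [add_right_comm, h5, map_add, add_assoc]
  refine ⟨h1, h2, fun m x hm hx => hHW x ⟨m, hm, hx⟩, h4, ?_⟩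
  intro b hb b' hb' w hw y hy
  obtain ⟨b'', hb'', w', hw', h5⟩ := h4 w hw b' hb'
  have h6 : b = b'' + R (w' + y) := by
    have : b = b' + (b - b') := by abel
    rw [this, hy, map_add]
    have : b' + (w + R y) = (w + b') + R y := by abel
    rw [this, h5]
    abel
  have h7 := hs b hb b'' hb'' _ h6
  have h8 : b - b' = w - R w' := by
    have : w = b'' + R w' - b' := by rw [← h5]; abel
    rw [this, h7]
    abel
  rw [h8]
  exact W.sub_mem hw (h2 _ hw')

/-! ### the quotient -/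

section quot

variable (W : AddSubgroup L) (hW : ∀ w ∈ W, R w ∈ W)

/-- the induced endomorphism of the quotient -/
def Rq (R : L →+ L) (W : AddSubgroup L) (hW : ∀ w ∈ W, R w ∈ W) : (L ⧸ W) →+ (L ⧸ W) :=
  QuotientAddGroup.map W W R hW

omit [Module.Free ℤ L] [Module.Finite ℤ L] in
theorem Rq_mk (x : L) : Rq R W hW (x : L ⧸ W) = ((R x : L) : L ⧸ W) := rfl

omit [Module.Free ℤ L] [Module.Finite ℤ L] in
theorem mv_quot {E : Set L} {n : ℕ} {x y : L} (h : Mv R E n x y) :
    Mv (Rq R W hW) ((fun x : L => (x : L ⧸ W)) '' E) n (x : L ⧸ W) (y : L ⧸ W) := by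
  induction h with
  | zero x => exact Mv.zero _
  | @succ n x y z e he hx _ ih =>
    refine Mv.succ (Set.mem_image_of_mem _ he) ?_ ih
    rw [hx, Rq_mk, QuotientAddGroup.mk_add]

omit [Module.Free ℤ L] [Module.Finite ℤ L] in
theorem mk_eq_iff (x y : L) : (x : L ⧸ W) = (y : L ⧸ W) ↔ x - y ∈ W := by
  rw [QuotientAddGroup.eq, ← neg_sub y x, W.neg_mem_iff, sub_eq_neg_add]

end quot

/-- the conclusion of the module: digits, lattice and trapped subgroup -/
theorem trp (hR : Function.Injective R) (hA : HasAttr R) (hB : B.Finite) (h0 : (0 : L) ∈ B)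
    (hs : Simple R B) (hinc : ∃ k, ¬ InCls R B k)
    (hnd : ∃ b ∈ B, b ∉ Trap R B hR hs hB) :
    ∃ (W Λ : AddSubgroup L) (D : Set L), D.Finite ∧ B ⊆ D ∧ Simple R D ∧ Full R D ∧
      Λ.FiniteIndex ∧ (∀ x ∈ Λ, ∃ δ ∈ D, ∃ y ∈ Λ, x = δ + R y) ∧
      (∀ w ∈ W, R w ∈ W) ∧
      (∀ w ∈ W, ∀ b ∈ B, ∃ b' ∈ B, ∃ w' ∈ W, w + b = b' + R w') ∧
      (∀ t ∈ Λ, ∃ n, ∃ w ∈ W, Mv R (D - B) n t w) ∧
      (∀ δ ∈ D, ∃ b ∈ B, ∀ b' ∈ B, b' - b ∈ W → δ + (b' - b) ∈ D) := by
  classical
  obtain ⟨hW1, hW2, hW3, hW4, hW5⟩ := trap_facts hR hs hB h0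
  set W := Trap R B hR hs hB with hWdef
  set π : L → L ⧸ W := fun x => (x : L ⧸ W) with hπ
  set Rb := Rq R W hW2 with hRb
  obtain ⟨hfree, hfinm⟩ := free_quotient W hW3
  have hπR : ∀ x, Rb (π x) = π (R x) := fun x => rfl
  have hπadd : ∀ x y, π (x + y) = π x + π y := fun x y => rfl
  have hπsub : ∀ x y, π (x - y) = π x - π y := fun x y => rfl
  have hπeq : ∀ x y, π x = π y ↔ x - y ∈ W := fun x y => mk_eq_iff W x y
  have hπs : ∀ q : L ⧸ W, ∃ x, π x = q := fun q => QuotientAddGroup.mk_surjective q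
  -- residues in `W`
  have hWres : ∀ w ∈ W, ∃ a ∈ B, a ∈ W ∧ ∃ w' ∈ W, w = a + R w' := by
    intro w hw
    obtain ⟨b', hb', w', hw', h1⟩ := hW4 w hw 0 h0
    rw [add_zero] at h1
    refine ⟨b', hb', ?_, w', hw', h1⟩
    have : b' = w - R w' := by rw [h1]; abel
    rw [this]
    exact W.sub_mem hw (hW2 _ hw')
  have hRbinj : Function.Injective Rb := by
    intro p q hpq
    obtain ⟨x, rfl⟩ := hπs p
    obtain ⟨y, rfl⟩ := hπs q
    rw [hπR, hπR, hπeq, ← map_sub] at hpq
    rw [hπeq]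
    exact hW1 _ hpq
  -- finite attractors in the quotient
  have hAb : HasAttr Rb := by
    intro Eb hEb
    set E : Set L := Quotient.out '' Eb with hE
    have hEf : E.Finite := hEb.image _
    have hmv : ∀ (n : ℕ) (p q : L ⧸ W), Mv Rb Eb n p q → ∀ x, π x = p →
        ∃ y, π y = q ∧ Mv R (E + (B ∩ W)) n x y := by
      intro n p q h
      induction h with
      | zero p => exact fun x hx => ⟨x, hx, Mv.zero x⟩
      | @succ n p p' q e he hpp' _ ih =>
        intro x hx
        obtain ⟨z₀, hz₀⟩ := hπs p'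
        have hout : π (Quotient.out e) = e := Quotient.out_eq' e
        have hw : x - (Quotient.out e + R z₀) ∈ W := by
          rw [← hπeq, hπadd, ← hπR, hz₀, hout, hx, hpp']
        obtain ⟨a, ha, haW, w', hw', h1⟩ := hWres _ hw
        obtain ⟨y, hy, hmy⟩ := ih (z₀ + w') (by
          rw [hπadd, hz₀]
          have : π w' = 0 := by
            have := (hπeq w' 0).2 (by simpa using hw')
            exact this
          rw [this, add_zero])
        refine ⟨y, hy, Mv.succ (e := Quotient.out e + a) ?_ ?_ hmy⟩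
        · exact Set.add_mem_add (Set.mem_image_of_mem _ he) ⟨ha, haW⟩
        · rw [map_add]
          have : x = (x - (Quotient.out e + R z₀)) + (Quotient.out e + R z₀) := by abel
          rw [this, h1]
          abel
    obtain ⟨K, hKf, hKs, hKe⟩ := hA (E + (B ∩ W)) (hEf.add (hB.inter_of_left _))
    refine ⟨π '' K, hKf.image _, ?_, ?_⟩
    · rintro _ ⟨x, hx, rfl⟩ n q hq
      obtain ⟨y, rfl, hy⟩ := hmv n _ q hq x rfl
      exact Set.mem_image_of_mem _ (hKs x hx n y hy)
    · intro p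
      obtain ⟨x, rfl⟩ := hπs p
      obtain ⟨n₀, hn₀⟩ := hKe x
      refine ⟨n₀, fun n hn q hq => ?_⟩
      obtain ⟨y, rfl, hy⟩ := hmv n _ q hq x rfl
      exact Set.mem_image_of_mem _ (hn₀ n hn y hy)
  -- lifting of classes
  have hcls : ∀ x, InCls Rb (π '' B) (π x) → InCls R B x := by
    rintro x ⟨_, ⟨b, hb, rfl⟩, q, hq⟩
    obtain ⟨y, rfl⟩ := hπs q
    rw [hπR, ← hπadd, hπeq] at hq
    obtain ⟨b', hb', w', -, h1⟩ := hW4 _ hq b hb
    refine ⟨b', hb', w' + y, ?_⟩
    rw [map_add, ← add_assoc, ← h1]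
    abel
  have hsb : Simple Rb (π '' B) := by
    rintro _ ⟨b, hb, rfl⟩ _ ⟨b', hb', rfl⟩ q hq
    obtain ⟨y, rfl⟩ := hπs q
    rw [hπR, ← hπadd, hπeq] at hq
    rw [hπeq]
    exact hW5 b hb b' hb' _ hq y (by abel)
  have hTb : TCond Rb (π '' B) (π '' B) := by
    intro p
    obtain ⟨x, rfl⟩ := hπs p
    by_cases hx : x ∈ W
    · left
      refine ⟨0, ?_⟩
      have : π x = 0 := (hπeq x 0).2 (by simpa using hx)
      rw [this]
      exact Mv.zero 0
    · right
      have hx' : ¬ IsTrap R B x := hx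
      unfold IsTrap at hx'
      push Not at hx'
      obtain ⟨n, y, hxy, b, hb, hnb⟩ := hx'
      refine ⟨n, π y, ?_, π b, Set.mem_image_of_mem _ hb, fun h => hnb ?_⟩
      · have h1 := mv_quot W hW2 hxy
        refine h1.mono ?_
        rintro _ ⟨_, ⟨b₁, hb₁, b₂, hb₂, rfl⟩, rfl⟩
        exact Set.sub_mem_sub (Set.mem_image_of_mem _ hb₁) (Set.mem_image_of_mem _ hb₂)
      · rw [← hπadd] at h
        exact hcls _ h
  obtain ⟨Db, hDbf, hBDb, hsDb, hFDb, Λb, hDΛb, hfib, hΛb1, hΛb2, hΛb3⟩ :=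
    combin hRbinj hAb (hB.image π) ⟨0, h0, rfl⟩ (by
      obtain ⟨b, hb, hbW⟩ := hnd
      refine ⟨π b, Set.mem_image_of_mem _ hb, fun h => hbW ?_⟩
      have := (hπeq b 0).1 h
      simpa using this) hsb (by
      obtain ⟨k, hk⟩ := hinc
      exact ⟨π k, fun h => hk (hcls k h)⟩) hTb
  -- the lifted digits
  set D : Set L := B ∪ {x | ∃ q ∈ Db, q ∉ π '' B ∧ ∃ a ∈ B, a ∈ W ∧ x = Quotient.out q + a}
    with hD
  have hout : ∀ q : L ⧸ W, π (Quotient.out q) = q := fun q => Quotient.out_eq' q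
  have hπD : ∀ x ∈ D, π x ∈ Db := by
    rintro x (hx | ⟨q, hq, -, a, ha, haW, rfl⟩)
    · exact hBDb (Set.mem_image_of_mem _ hx)
    · rw [hπadd, hout]
      have : π a = 0 := (hπeq a 0).2 (by simpa using haW)
      rwa [this, add_zero]
  have hDf : D.Finite := by
    apply hB.union
    apply ((hDbf.image (Quotient.out : L ⧸ W → L)).add hB).subset
    rintro x ⟨q, hq, -, a, ha, -, rfl⟩
    exact Set.add_mem_add (Set.mem_image_of_mem _ hq) ha
  have hlift : ∀ (x : L) (q : L ⧸ W), q ∈ Db → ∀ p, π x = q + Rb p →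
      ∃ δ ∈ D, ∃ y, π y = p ∧ x = δ + R y := by
    intro x q hq p hx
    obtain ⟨y, rfl⟩ := hπs p
    by_cases hqB : q ∈ π '' B
    · obtain ⟨b, hb, rfl⟩ := hqB
      rw [hπR, ← hπadd, hπeq] at hx
      obtain ⟨b', hb', w', hw', h1⟩ := hW4 _ hx b hb
      refine ⟨b', Or.inl hb', w' + y, ?_, ?_⟩
      · rw [hπeq]
        simpa using hw'
      · rw [map_add, ← add_assoc, ← h1]
        abel
    · have hx' : x - (Quotient.out q + R y) ∈ W := by
        rw [← hπeq, hπadd, hout, hx, hπR]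
      obtain ⟨a, ha, haW, w', hw', h1⟩ := hWres _ hx'
      refine ⟨Quotient.out q + a, Or.inr ⟨q, hq, hqB, a, ha, haW, rfl⟩, w' + y, ?_, ?_⟩
      · rw [hπeq]
        simpa using hw'
      · rw [map_add]
        have : x = (x - (Quotient.out q + R y)) + (Quotient.out q + R y) := by abel
        rw [this, h1]
        abel
  refine ⟨W, Λb.comap (QuotientAddGroup.mk' W), D, hDf, Set.subset_union_left, ?_, ?_, ?_, ?_, hW2,
    hW4, ?_, ?_⟩
  · -- simple
    intro x hx y hy z hxy
    have h1 : π x = π y := by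
      apply hsDb _ (hπD x hx) _ (hπD y hy) (π z)
      rw [hπR, ← hπadd, ← hxy]
    have hz : z ∈ W := by
      apply hW1
      have := (hπeq x y).1 h1
      rw [hxy] at this
      simpa using this
    rcases hx with hx | ⟨q, hq, hqB, a, ha, haW, rfl⟩
    · rcases hy with hy | ⟨q, hq, hqB, a, ha, haW, rfl⟩
      · exact hs x hx y hy z hxy
      · exfalso
        apply hqB
        have h2 : π (Quotient.out q + a) = q := by
          rw [hπadd, hout]
          have : π a = 0 := (hπeq a 0).2 (by simpa using haW)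
          rw [this, add_zero]
        rw [h2] at h1
        exact ⟨x, hx, h1⟩
    · rcases hy with hy | ⟨q', hq', hqB', a', ha', haW', rfl⟩
      · exfalso
        apply hqB
        have h2 : π (Quotient.out q + a) = q := by
          rw [hπadd, hout]
          have : π a = 0 := (hπeq a 0).2 (by simpa using haW)
          rw [this, add_zero]
        rw [h2] at h1
        exact ⟨y, hy, h1.symm⟩
      · have h2 : q = q' := by
          have e1 : π a = 0 := (hπeq a 0).2 (by simpa using haW)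
          have e2 : π a' = 0 := (hπeq a' 0).2 (by simpa using haW')
          rw [hπadd, hπadd, hout, hout, e1, e2, add_zero, add_zero] at h1
          exact h1
        subst h2
        have h3 : a = a' := by
          apply hs a ha a' ha' z
          rw [add_assoc] at hxy
          exact add_left_cancel hxy
        rw [h3]
  · -- full
    intro x
    obtain ⟨q, hq, p, hp⟩ := hFDb (π x)
    obtain ⟨δ, hδ, y, -, hy⟩ := hlift x q hq p hp
    exact ⟨δ, hδ, y, hy⟩
  · -- finite index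
    have : Function.Surjective (QuotientAddGroup.mk' W) := QuotientAddGroup.mk'_surjective W
    constructor
    rw [AddSubgroup.index_comap_of_surjective _ this]
    exact hfib.index_ne_zero
  · -- full in the lattice
    intro x hx
    rw [AddSubgroup.mem_comap] at hx
    change π x ∈ Λb at hx
    obtain ⟨q, hq, p, hp⟩ := hFDb (π x)
    obtain ⟨δ, hδ, y, hy, hxy⟩ := hlift x q hq p hp
    refine ⟨δ, hδ, y, ?_, hxy⟩
    rw [AddSubgroup.mem_comap]
    change π y ∈ Λb
    rw [hy]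
    apply hΛb2
    have : Rb p = π x - q := by rw [hp]; abel
    rw [this]
    exact Λb.sub_mem hx (hDΛb hq)
  · -- synchronisation
    intro t ht
    rw [AddSubgroup.mem_comap] at ht
    change π t ∈ Λb at ht
    obtain ⟨n, hn⟩ := hΛb3 _ ht
    have key : ∀ (n : ℕ) (p q : L ⧸ W), Mv Rb (Db - π '' B) n p q → ∀ x, π x = p →
        ∃ y, π y = q ∧ Mv R (D - B) n x y := by
      intro n p q h
      induction h with
      | zero p => exact fun x hx => ⟨x, hx, Mv.zero x⟩
      | @succ n p p' q e he hpp' _ ih =>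
        intro x hx
        obtain ⟨q₁, hq₁, _, ⟨b, hb, rfl⟩, rfl⟩ := Set.mem_sub.1 he
        have h1 : π (x + b) = q₁ + Rb p' := by
          rw [hπadd, hx, hpp']
          abel
        obtain ⟨δ, hδ, y, hy, hxy⟩ := hlift _ _ hq₁ _ h1
        obtain ⟨z, hz, hyz⟩ := ih y hy
        refine ⟨z, hz, Mv.succ (Set.sub_mem_sub hδ hb) ?_ hyz⟩
        rw [sub_add_eq_add_sub, ← hxy, add_sub_cancel_right]
    obtain ⟨y, hy, hty⟩ := key n _ _ hn t rfl
    refine ⟨n, y, ?_, hty⟩
    have := (hπeq y 0).1 hy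
    simpa using this
  · -- types
    rintro δ (hδ | ⟨q, hq, hqB, a, ha, haW, rfl⟩)
    · refine ⟨δ, hδ, fun b' hb' _ => Or.inl ?_⟩
      rwa [add_sub_cancel]
    · refine ⟨a, ha, fun b' hb' hb'W => Or.inr ⟨q, hq, hqB, b', hb', ?_, ?_⟩⟩
      · have := W.add_mem hb'W haW
        rwa [sub_add_cancel] at this
      · abel

end Pool.Agent.helper23.TS
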